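import Mathlib

/-!
# MP_65fb70_co : sigma-Helly number of the aligned sum of two (overlapping) aligned spaces
-/

namespace Pool.Agent.Results.MP_65fb70_co.AlignedSumHelly

open Set

/-- `C` is an alignment (a family of convex sets) on `X`. -/
structure IsAligned {α : Type} (X : Set α) (C : Set (Set α)) : Prop where
  sub : ∀ A ∈ C, A ⊆ X
  empty_mem : ∅ ∈ C
  univ_mem : X ∈ C
  sInter_mem : ∀ F : Set (Set α), F ⊆ C → F.Nonempty → ⋂₀ F ∈ C
  chain_mem : ∀ F : Set (Set α), F ⊆ C → F.Nonempty → IsChain (· ⊆ ·) F → ⋃₀ F ∈ C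

variable {α : Type}

/-- The hull of `S`. -/
def hull (C : Set (Set α)) (S : Set α) : Set α := ⋂₀ {A | A ∈ C ∧ S ⊆ A}

/-- The `σ`-core of `S`. -/
def core (C : Set (Set α)) (σ : ℕ) (S : Set α) : Set α :=
  {x | ∀ M ⊆ S, M.encard ≤ σ → x ∈ hull C (S \ M)}

/-- The `σ`-Helly number of `(X, C)`. -/
noncomputable def helly (X : Set α) (C : Set (Set α)) (σ : ℕ) : ℕ∞ :=
  sInf {k | ∃ n : ℕ, k = n ∧ ∀ S ⊆ X, (n : ℕ∞) + 1 ≤ S.encard → (core C σ S).Nonempty}

/-- The aligned sum. -/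
def alignedSum (X₁ X₂ : Set α) (C₁ C₂ : Set (Set α)) : Set (Set α) :=
  {E | ∃ A ∈ C₁, ∃ B ∈ C₂, E = (A \ X₂) ∪ (B \ X₁) ∪ (A ∩ B)}

/-- All values of the `σ`-Helly number of the aligned sum of two aligned spaces
with `σ`-Helly numbers `a` and `b`. -/
def SumValues (σ : ℕ) (a b : ℕ∞) : Set ℕ∞ :=
  {h | ∃ (α : Type) (X₁ X₂ : Set α) (C₁ C₂ : Set (Set α)),
    IsAligned X₁ C₁ ∧ IsAligned X₂ C₂ ∧ helly X₁ C₁ σ = a ∧ helly X₂ C₂ σ = b ∧
      helly (X₁ ∪ X₂) (alignedSum X₁ X₂ C₁ C₂) σ = h}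

/-! ### Basic facts -/

theorem subset_hull (C : Set (Set α)) (S : Set α) : S ⊆ hull C S :=
  fun _ hx _ hA => hA.2 hx

theorem hull_subset {C : Set (Set α)} {S A : Set α} (hA : A ∈ C) (h : S ⊆ A) : hull C S ⊆ A :=
  fun _ hx => hx A ⟨hA, h⟩

theorem hull_mem {X : Set α} {C : Set (Set α)} (hC : IsAligned X C) {S : Set α} (hS : S ⊆ X) :
    hull C S ∈ C :=
  hC.sInter_mem _ (fun _ hA => hA.1) ⟨X, hC.univ_mem, hS⟩

theorem hull_mono (C : Set (Set α)) {S T : Set α} (h : S ⊆ T) : hull C S ⊆ hull C T :=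
  fun _ hx A hA => hx A ⟨hA.1, h.trans hA.2⟩

theorem hull_empty {X : Set α} {C : Set (Set α)} (hC : IsAligned X C) :
    hull C (∅ : Set α) = ∅ :=
  Set.eq_empty_of_subset_empty (hull_subset hC.empty_mem (Set.empty_subset _))

theorem mem_hull_sum {X₁ X₂ : Set α} {C₁ C₂ : Set (Set α)} (h₁ : IsAligned X₁ C₁)
    (h₂ : IsAligned X₂ C₂) {S : Set α} (hS : S ⊆ X₁ ∪ X₂) (x : α) :
    x ∈ hull (alignedSum X₁ X₂ C₁ C₂) S ↔
      x ∈ X₁ ∪ X₂ ∧ (x ∈ X₁ → x ∈ hull C₁ (S ∩ X₁)) ∧ (x ∈ X₂ → x ∈ hull C₂ (S ∩ X₂)) := by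
  have hm1 := hull_mem h₁ (S := S ∩ X₁) inter_subset_right
  have hm2 := hull_mem h₂ (S := S ∩ X₂) inter_subset_right
  have hs1 := h₁.sub _ hm1
  have hs2 := h₂.sub _ hm2
  constructor
  · intro hx
    have hE : (hull C₁ (S ∩ X₁) \ X₂) ∪ (hull C₂ (S ∩ X₂) \ X₁) ∪
        (hull C₁ (S ∩ X₁) ∩ hull C₂ (S ∩ X₂)) ∈ alignedSum X₁ X₂ C₁ C₂ :=
      ⟨_, hm1, _, hm2, rfl⟩
    have hSE : S ⊆ (hull C₁ (S ∩ X₁) \ X₂) ∪ (hull C₂ (S ∩ X₂) \ X₁) ∪
        (hull C₁ (S ∩ X₁) ∩ hull C₂ (S ∩ X₂)) := by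
      intro s hs
      by_cases k1 : s ∈ X₁
      · have a1 := subset_hull C₁ _ (show s ∈ S ∩ X₁ from ⟨hs, k1⟩)
        by_cases k2 : s ∈ X₂
        · have a2 := subset_hull C₂ _ (show s ∈ S ∩ X₂ from ⟨hs, k2⟩)
          exact Or.inr ⟨a1, a2⟩
        · exact Or.inl (Or.inl ⟨a1, k2⟩)
      · have k2 : s ∈ X₂ := (hS hs).resolve_left k1
        have a2 := subset_hull C₂ _ (show s ∈ S ∩ X₂ from ⟨hs, k2⟩)
        exact Or.inl (Or.inr ⟨a2, k1⟩)
    have hx' := hull_subset hE hSE hx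
    rcases hx' with (⟨ha, hb⟩ | ⟨ha, hb⟩) | ⟨ha, hb⟩
    · exact ⟨Or.inl (hs1 ha), fun _ => ha, fun h => absurd h hb⟩
    · exact ⟨Or.inr (hs2 ha), fun h => absurd h hb, fun _ => ha⟩
    · exact ⟨Or.inl (hs1 ha), fun _ => ha, fun _ => hb⟩
  · rintro ⟨hx, hx1, hx2⟩ E ⟨⟨A, hA, B, hB, rfl⟩, hSE⟩
    have hA' : S ∩ X₁ ⊆ A := by
      rintro s ⟨hs, k1⟩
      rcases hSE hs with (⟨ha, _⟩ | ⟨_, hb⟩) | ⟨ha, _⟩
      · exact ha
      · exact absurd k1 hb
      · exact ha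
    have hB' : S ∩ X₂ ⊆ B := by
      rintro s ⟨hs, k2⟩
      rcases hSE hs with (⟨_, hb⟩ | ⟨ha, _⟩) | ⟨_, hb⟩
      · exact absurd k2 hb
      · exact ha
      · exact hb
    by_cases k1 : x ∈ X₁
    · have a1 := hull_subset hA hA' (hx1 k1)
      by_cases k2 : x ∈ X₂
      · exact Or.inr ⟨a1, hull_subset hB hB' (hx2 k2)⟩
      · exact Or.inl (Or.inl ⟨a1, k2⟩)
    · have k2 : x ∈ X₂ := hx.resolve_left k1
      exact Or.inl (Or.inr ⟨hull_subset hB hB' (hx2 k2), k1⟩)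

theorem le_helly {X : Set α} {C : Set (Set α)} {σ : ℕ} {S : Set α} (hS : S ⊆ X)
    (hc : core C σ S = ∅) : S.encard ≤ helly X C σ := by
  refine le_sInf ?_
  rintro k ⟨n, rfl, hn⟩
  by_contra hlt
  rw [not_le] at hlt
  have := hn S hS (Order.add_one_le_of_lt hlt)
  rw [hc] at this
  exact Set.not_nonempty_empty this

theorem helly_le {X : Set α} {C : Set (Set α)} {σ : ℕ} {m : ℕ∞}
    (h : ∀ S ⊆ X, core C σ S = ∅ → S.encard ≤ m) : helly X C σ ≤ m := by
  induction m using ENat.recTopCoe with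
  | top => exact le_top
  | coe n =>
    refine sInf_le ⟨n, rfl, ?_⟩
    intro S hS hcard
    by_contra hne
    rw [Set.not_nonempty_iff_eq_empty] at hne
    have := hcard.trans (h S hS hne)
    have h2 : ((n + 1 : ℕ) : ℕ∞) ≤ (n : ℕ) := by push_cast; exact this
    have h3 := Nat.cast_le.mp h2
    omega

theorem exists_of_lt_helly {X : Set α} {C : Set (Set α)} {σ : ℕ} {n : ℕ}
    (h : (n : ℕ∞) < helly X C σ) :
    ∃ S ⊆ X, (n : ℕ∞) + 1 ≤ S.encard ∧ core C σ S = ∅ := by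
  by_contra hcon
  push Not at hcon
  have : helly X C σ ≤ n := by
    refine sInf_le ⟨n, rfl, ?_⟩
    intro S hS hcard
    exact hcon S hS hcard
  exact absurd h (not_lt.mpr this)

theorem core_empty_of_small {C : Set (Set α)} (hC : hull C (∅ : Set α) = ∅) {σ : ℕ}
    {S : Set α} (h : S.encard ≤ σ) : core C σ S = ∅ := by
  apply Set.eq_empty_of_forall_notMem
  intro x hx
  have := hx S subset_rfl h
  rw [Set.sdiff_self, hC] at this
  exact this

theorem helly_le_encard {X : Set α} {C : Set (Set α)} {σ : ℕ} : helly X C σ ≤ X.encard :=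
  helly_le (fun _ hS _ => Set.encard_le_encard hS)

/-- `min (|X|, σ) ≤ h(σ)`. -/
theorem min_le_helly {X : Set α} {C : Set (Set α)} (hC : hull C (∅ : Set α) = ∅) (σ : ℕ) :
    min X.encard (σ : ℕ∞) ≤ helly X C σ := by
  obtain ⟨S, hS, hcard⟩ := Set.exists_subset_encard_eq (min_le_left X.encard (σ : ℕ∞))
  rw [← hcard]
  exact le_helly hS (core_empty_of_small hC (by rw [hcard]; exact min_le_right _ _))

theorem encard_of_helly_lt {X : Set α} {C : Set (Set α)} (hC : IsAligned X C) {σ : ℕ}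
    (h : helly X C σ < σ) : X.encard = helly X C σ := by
  refine le_antisymm ?_ helly_le_encard
  have := min_le_helly (X := X) (hull_empty hC) σ
  rcases le_total X.encard (σ : ℕ∞) with hle | hle
  · rwa [min_eq_left hle] at this
  · rw [min_eq_right hle] at this
    exact absurd h (not_lt.mpr this)

/-! ### Families with one or two forced points -/

/-- Hulls are obtained by adding `p₁` as soon as `T₁` is hit and `p₂` as soon as `T₂` is hit. -/
def IsTP (X : Set α) (C : Set (Set α)) (T₁ T₂ : Set α) (p₁ p₂ : α) : Prop :=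
  ∀ S ⊆ X, ∀ x, x ∈ hull C S ↔
    x ∈ S ∨ (x = p₁ ∧ (S ∩ T₁).Nonempty) ∨ (x = p₂ ∧ (S ∩ T₂).Nonempty)

theorem core_tp {X : Set α} {C : Set (Set α)} {T₁ T₂ : Set α} {p₁ p₂ : α}
    (h : IsTP X C T₁ T₂ p₁ p₂) (hd : Disjoint T₁ T₂)
    (hp₁ : T₁.Nonempty → p₁ ∈ T₁) (hp₂ : T₂.Nonempty → p₂ ∈ T₂) {σ : ℕ} (hσ : 1 ≤ σ)
    {S : Set α} (hS : S ⊆ X) :
    core C σ S = ∅ ↔ (S ∩ T₁).encard ≤ σ ∧ (S ∩ T₂).encard ≤ σ := by
  constructor
  · intro hc
    constructor
    · by_contra hlt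
      rw [not_le] at hlt
      have : p₁ ∈ core C σ S := by
        intro M hM hMc
        rw [h _ (sdiff_subset.trans hS)]
        right; left
        refine ⟨rfl, ?_⟩
        by_contra hne
        rw [Set.not_nonempty_iff_eq_empty] at hne
        have hsub : S ∩ T₁ ⊆ M := by
          rintro s ⟨hs, hs1⟩
          by_contra hsM
          have : s ∈ (S \ M) ∩ T₁ := ⟨⟨hs, hsM⟩, hs1⟩
          rw [hne] at this
          exact this
        exact absurd ((Set.encard_le_encard hsub).trans hMc) (not_le.mpr hlt)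
      rw [hc] at this
      exact this
    · by_contra hlt
      rw [not_le] at hlt
      have : p₂ ∈ core C σ S := by
        intro M hM hMc
        rw [h _ (sdiff_subset.trans hS)]
        right; right
        refine ⟨rfl, ?_⟩
        by_contra hne
        rw [Set.not_nonempty_iff_eq_empty] at hne
        have hsub : S ∩ T₂ ⊆ M := by
          rintro s ⟨hs, hs1⟩
          by_contra hsM
          have : s ∈ (S \ M) ∩ T₂ := ⟨⟨hs, hsM⟩, hs1⟩
          rw [hne] at this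
          exact this
        exact absurd ((Set.encard_le_encard hsub).trans hMc) (not_le.mpr hlt)
      rw [hc] at this
      exact this
  · rintro ⟨h1, h2⟩
    apply Set.eq_empty_of_forall_notMem
    intro x hx
    by_cases k1 : x ∈ T₁
    · have := hx (S ∩ T₁) inter_subset_left h1
      rw [h _ (sdiff_subset.trans hS)] at this
      rcases this with ha | ⟨_, y, hy⟩ | ⟨rfl, y, hy⟩
      · exact ha.2 ⟨ha.1, k1⟩
      · exact hy.1.2 ⟨hy.1.1, hy.2⟩
      · exact Set.disjoint_left.mp hd k1 (hp₂ ⟨y, hy.2⟩)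
    · by_cases k2 : x ∈ T₂
      · have := hx (S ∩ T₂) inter_subset_left h2
        rw [h _ (sdiff_subset.trans hS)] at this
        rcases this with ha | ⟨rfl, y, hy⟩ | ⟨_, y, hy⟩
        · exact ha.2 ⟨ha.1, k2⟩
        · exact k1 (hp₁ ⟨y, hy.2⟩)
        · exact hy.1.2 ⟨hy.1.1, hy.2⟩
      · have hc1 : ({x} ∩ S).encard ≤ (σ : ℕ∞) := by
          refine (Set.encard_le_encard inter_subset_left).trans ?_
          rw [Set.encard_singleton]
          exact_mod_cast hσ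
        have := hx ({x} ∩ S) inter_subset_right hc1
        rw [h _ (sdiff_subset.trans hS)] at this
        rcases this with ha | ⟨rfl, y, hy⟩ | ⟨rfl, y, hy⟩
        · exact ha.2 ⟨rfl, ha.1⟩
        · exact k1 (hp₁ ⟨y, hy.2⟩)
        · exact k2 (hp₂ ⟨y, hy.2⟩)

theorem helly_tp {X : Set α} {C : Set (Set α)} {T₁ T₂ : Set α} {p₁ p₂ : α}
    (h : IsTP X C T₁ T₂ p₁ p₂) (hd : Disjoint T₁ T₂) (hT₁ : T₁ ⊆ X) (hT₂ : T₂ ⊆ X)
    (hp₁ : T₁.Nonempty → p₁ ∈ T₁) (hp₂ : T₂.Nonempty → p₂ ∈ T₂) {σ : ℕ} (hσ : 1 ≤ σ) :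
    helly X C σ = (X \ (T₁ ∪ T₂)).encard + (min T₁.encard σ + min T₂.encard σ) := by
  apply le_antisymm
  · refine helly_le ?_
    intro S hS hc
    rw [core_tp h hd hp₁ hp₂ hσ hS] at hc
    have hsub : S ⊆ (X \ (T₁ ∪ T₂)) ∪ ((S ∩ T₁) ∪ (S ∩ T₂)) := by
      intro s hs
      by_cases k1 : s ∈ T₁
      · exact Or.inr (Or.inl ⟨hs, k1⟩)
      · by_cases k2 : s ∈ T₂
        · exact Or.inr (Or.inr ⟨hs, k2⟩)
        · exact Or.inl ⟨hS hs, fun hk => hk.elim k1 k2⟩
    refine (Set.encard_le_encard hsub).trans ((Set.encard_union_le _ _).trans ?_)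
    refine add_le_add le_rfl ((Set.encard_union_le _ _).trans ?_)
    exact add_le_add (le_min (Set.encard_le_encard inter_subset_right) hc.1)
      (le_min (Set.encard_le_encard inter_subset_right) hc.2)
  · obtain ⟨U₁, hU₁, hc₁⟩ := Set.exists_subset_encard_eq (min_le_left T₁.encard (σ : ℕ∞))
    obtain ⟨U₂, hU₂, hc₂⟩ := Set.exists_subset_encard_eq (min_le_left T₂.encard (σ : ℕ∞))
    have hd12 : Disjoint U₁ U₂ := hd.mono hU₁ hU₂
    have hd3 : Disjoint (X \ (T₁ ∪ T₂)) (U₁ ∪ U₂) :=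
      (Set.disjoint_sdiff_left).mono_right (Set.union_subset_union hU₁ hU₂)
    have hcard : ((X \ (T₁ ∪ T₂)) ∪ (U₁ ∪ U₂)).encard =
        (X \ (T₁ ∪ T₂)).encard + (min T₁.encard σ + min T₂.encard σ) := by
      rw [Set.encard_union_eq hd3, Set.encard_union_eq hd12, hc₁, hc₂]
    rw [← hcard]
    have hSX : (X \ (T₁ ∪ T₂)) ∪ (U₁ ∪ U₂) ⊆ X :=
      Set.union_subset sdiff_subset (Set.union_subset (hU₁.trans hT₁) (hU₂.trans hT₂))
    refine le_helly hSX ?_
    rw [core_tp h hd hp₁ hp₂ hσ hSX]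
    constructor
    · have : ((X \ (T₁ ∪ T₂)) ∪ (U₁ ∪ U₂)) ∩ T₁ ⊆ U₁ := by
        rintro s ⟨(hs | hs | hs), hs1⟩
        · exact absurd (Or.inl hs1) hs.2
        · exact hs
        · exact absurd (hU₂ hs) (Set.disjoint_left.mp hd hs1)
      refine (Set.encard_le_encard this).trans ?_
      rw [hc₁]
      exact min_le_right _ _
    · have : ((X \ (T₁ ∪ T₂)) ∪ (U₁ ∪ U₂)) ∩ T₂ ⊆ U₂ := by
        rintro s ⟨(hs | hs | hs), hs1⟩
        · exact absurd (Or.inr hs1) hs.2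
        · exact absurd (hU₁ hs) (Set.disjoint_right.mp hd hs1)
        · exact hs
      refine (Set.encard_le_encard this).trans ?_
      rw [hc₂]
      exact min_le_right _ _

/-- The alignment on `X` in which `p` is forced into every convex set meeting `T`. -/
def ptd (X T : Set α) (p : α) : Set (Set α) := {A | A ⊆ X ∧ ((A ∩ T).Nonempty → p ∈ A)}

theorem isAligned_ptd {X T : Set α} {p : α} (hT : T ⊆ X) (hp : T.Nonempty → p ∈ T) :
    IsAligned X (ptd X T p) where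
  sub := fun A hA => hA.1
  empty_mem := ⟨empty_subset _, by simp⟩
  univ_mem := ⟨subset_rfl, fun ⟨x, hx⟩ => hT (hp ⟨x, hx.2⟩)⟩
  sInter_mem := by
    rintro F hF ⟨A, hA⟩
    refine ⟨(sInter_subset_of_mem hA).trans (hF hA).1, ?_⟩
    rintro ⟨y, hy, hyT⟩ B hB
    exact (hF hB).2 ⟨y, hy B hB, hyT⟩
  chain_mem := by
    rintro F hF - -
    refine ⟨sUnion_subset (fun A hA => (hF hA).1), ?_⟩
    rintro ⟨y, ⟨A, hA, hyA⟩, hyT⟩
    exact ⟨A, hA, (hF hA).2 ⟨y, hyA, hyT⟩⟩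

theorem mem_hull_ptd {X T : Set α} {p : α} (hT : T ⊆ X) (hp : T.Nonempty → p ∈ T)
    {S : Set α} (hS : S ⊆ X) (x : α) :
    x ∈ hull (ptd X T p) S ↔ x ∈ S ∨ (x = p ∧ (S ∩ T).Nonempty) := by
  constructor
  · intro hx
    have hm : (S ∪ {x | x = p ∧ (S ∩ T).Nonempty}) ∈ ptd X T p := by
      constructor
      · rintro y (hy | ⟨rfl, z, hz⟩)
        · exact hS hy
        · exact hT (hp ⟨z, hz.2⟩)
      · rintro ⟨y, (hy | hy), hyT⟩
        · exact Or.inr ⟨rfl, y, hy, hyT⟩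
        · exact Or.inr ⟨rfl, hy.2⟩
    exact hull_subset hm subset_union_left hx
  · rintro (hx | ⟨rfl, y, hy⟩)
    · exact subset_hull _ _ hx
    · rintro A ⟨hA, hSA⟩
      exact hA.2 ⟨y, hSA hy.1, hy.2⟩

theorem isTP_ptd {X T : Set α} {p : α} (hT : T ⊆ X) (hp : T.Nonempty → p ∈ T) :
    IsTP X (ptd X T p) T ∅ p p := by
  intro S hS x
  rw [mem_hull_ptd hT hp hS]
  simp

theorem helly_ptd {X T : Set α} {p : α} (hT : T ⊆ X) (hp : T.Nonempty → p ∈ T)
    {σ : ℕ} (hσ : 1 ≤ σ) :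
    helly X (ptd X T p) σ = (X \ T).encard + min T.encard σ := by
  rw [helly_tp (isTP_ptd hT hp) (disjoint_empty _) hT (empty_subset _) hp (by simp) hσ]
  simp

/-! ### General bounds for the aligned sum -/

theorem alignedSum_comm (X₁ X₂ : Set α) (C₁ C₂ : Set (Set α)) :
    alignedSum X₁ X₂ C₁ C₂ = alignedSum X₂ X₁ C₂ C₁ := by
  ext E
  constructor
  · rintro ⟨A, hA, B, hB, rfl⟩
    exact ⟨B, hB, A, hA, by rw [Set.union_comm (A \ X₂), Set.inter_comm]⟩
  · rintro ⟨A, hA, B, hB, rfl⟩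
    exact ⟨B, hB, A, hA, by rw [Set.union_comm (A \ X₁), Set.inter_comm]⟩

theorem sumValues_comm (σ : ℕ) (a b : ℕ∞) : SumValues σ a b = SumValues σ b a := by
  have key : ∀ a b : ℕ∞, SumValues σ a b ⊆ SumValues σ b a := by
    rintro a b h ⟨α, X₁, X₂, C₁, C₂, h₁, h₂, ha, hb, hh⟩
    refine ⟨α, X₂, X₁, C₂, C₁, h₂, h₁, hb, ha, ?_⟩
    rw [← hh, alignedSum_comm, Set.union_comm]
  exact Set.Subset.antisymm (key a b) (key b a)

theorem hull_sum_empty {X₁ X₂ : Set α} {C₁ C₂ : Set (Set α)} (h₁ : IsAligned X₁ C₁)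
    (h₂ : IsAligned X₂ C₂) : hull (alignedSum X₁ X₂ C₁ C₂) (∅ : Set α) = ∅ := by
  apply Set.eq_empty_of_forall_notMem
  intro x hx
  rw [mem_hull_sum h₁ h₂ (Set.empty_subset _)] at hx
  rw [Set.empty_inter, Set.empty_inter, hull_empty h₁, hull_empty h₂] at hx
  rcases hx with ⟨hx | hx, h3, h4⟩
  · exact h3 hx
  · exact h4 hx

theorem helly_two_le {X₁ X₂ : Set α} {C₁ C₂ : Set (Set α)} (h₁ : IsAligned X₁ C₁)
    (h₂ : IsAligned X₂ C₂) {σ : ℕ} (ha : helly X₁ C₁ σ < σ) :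
    helly X₂ C₂ σ ≤ helly (X₁ ∪ X₂) (alignedSum X₁ X₂ C₁ C₂) σ := by
  refine helly_le ?_
  intro S hS hc
  refine le_helly (hS.trans subset_union_right) ?_
  apply Set.eq_empty_of_forall_notMem
  intro x hx
  have hX1 := encard_of_helly_lt h₁ ha
  by_cases k2 : x ∈ X₂
  · have : x ∈ core C₂ σ S := by
      intro M hM hMc
      have := hx M hM hMc
      rw [mem_hull_sum h₁ h₂ ((sdiff_subset.trans hS).trans subset_union_right)] at this
      exact hull_mono _ inter_subset_left (this.2.2 k2)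
    rw [hc] at this
    exact this
  · have hM : (S ∩ X₁).encard ≤ σ :=
      (Set.encard_le_encard inter_subset_right).trans (by rw [hX1]; exact ha.le)
    have := hx (S ∩ X₁) inter_subset_left hM
    rw [mem_hull_sum h₁ h₂ ((sdiff_subset.trans hS).trans subset_union_right)] at this
    have k1 := this.1.resolve_right k2
    have h3 := this.2.1 k1
    have h4 : (S \ (S ∩ X₁)) ∩ X₁ = ∅ := by
      ext y
      simp only [Set.mem_inter_iff, Set.mem_sdiff, Set.mem_empty_iff_false, iff_false]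
      tauto
    rw [h4, hull_empty h₁] at h3
    exact h3

theorem helly_sum_le_of_empty {X₁ X₂ : Set α} {C₁ C₂ : Set (Set α)} (h₁ : IsAligned X₁ C₁)
    (h₂ : IsAligned X₂ C₂) {σ : ℕ} (hX : X₁ = ∅) :
    helly (X₁ ∪ X₂) (alignedSum X₁ X₂ C₁ C₂) σ ≤ helly X₂ C₂ σ := by
  subst hX
  refine helly_le ?_
  intro S hS hc
  have hS2 : S ⊆ X₂ := by rwa [Set.empty_union] at hS
  refine le_helly hS2 ?_
  apply Set.eq_empty_of_forall_notMem
  intro x hx
  have : x ∈ core (alignedSum ∅ X₂ C₁ C₂) σ S := by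
    intro M hM hMc
    have h3 := hx M hM hMc
    rw [mem_hull_sum h₁ h₂ (sdiff_subset.trans hS)]
    refine ⟨Or.inr (hull_subset h₂.univ_mem (sdiff_subset.trans hS2) h3), fun h => absurd h
      (Set.notMem_empty _), fun _ => ?_⟩
    rwa [Set.inter_eq_left.mpr (sdiff_subset.trans hS2)]
  rw [hc] at this
  exact this

/-- If both Helly numbers of the summands exceed the Helly number `n` of the sum, then
`X₂ \ X₁` is nonempty. -/
theorem exists_mem_sdiff {X₁ X₂ : Set α} {C₁ C₂ : Set (Set α)} (h₁ : IsAligned X₁ C₁)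
    (h₂ : IsAligned X₂ C₂) {σ n : ℕ} (hn : helly (X₁ ∪ X₂) (alignedSum X₁ X₂ C₁ C₂) σ = n)
    (ha : (n : ℕ∞) < helly X₁ C₁ σ) :
    (∃ S ⊆ X₁, (n : ℕ∞) + 1 ≤ S.encard) ∧ ∃ q ∈ X₂, q ∉ X₁ := by
  obtain ⟨S, hS, hcard, hc⟩ := exists_of_lt_helly ha
  refine ⟨⟨S, hS, hcard⟩, ?_⟩
  have hne : (core (alignedSum X₁ X₂ C₁ C₂) σ S).Nonempty := by
    by_contra hcon
    rw [Set.not_nonempty_iff_eq_empty] at hcon
    have h3 := hcard.trans (le_helly (X := X₁ ∪ X₂) (hS.trans subset_union_left) hcon)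
    rw [hn] at h3
    have h2 : ((n + 1 : ℕ) : ℕ∞) ≤ (n : ℕ) := by push_cast; exact h3
    have h3 := Nat.cast_le.mp h2
    omega
  obtain ⟨q, hq⟩ := hne
  have hS' : S ⊆ X₁ ∪ X₂ := hS.trans subset_union_left
  have hq1 : q ∉ X₁ := by
    intro hq1
    have : q ∈ core C₁ σ S := by
      intro M hM hMc
      have := hq M hM hMc
      rw [mem_hull_sum h₁ h₂ (sdiff_subset.trans hS')] at this
      exact hull_mono _ inter_subset_left (this.2.1 hq1)
    rw [hc] at this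
    exact this
  have h0 := hq ∅ (Set.empty_subset _) (by simp)
  rw [mem_hull_sum h₁ h₂ (sdiff_subset.trans hS')] at h0
  exact ⟨q, h0.1.resolve_left hq1, hq1⟩

theorem succ_le_helly_sum {X₁ X₂ : Set α} {C₁ C₂ : Set (Set α)} (h₁ : IsAligned X₁ C₁)
    (h₂ : IsAligned X₂ C₂) {σ : ℕ} (hσ : 1 ≤ σ) (ha : (σ : ℕ∞) ≤ helly X₁ C₁ σ) :
    min (min (helly X₁ C₁ σ) (helly X₂ C₂ σ)) ((σ : ℕ∞) + 1) ≤
      helly (X₁ ∪ X₂) (alignedSum X₁ X₂ C₁ C₂) σ := by
  by_contra hlt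
  rw [not_le, lt_min_iff, lt_min_iff] at hlt
  obtain ⟨⟨hl1, hl2⟩, hl3⟩ := hlt
  obtain ⟨n, hn⟩ := ENat.ne_top_iff_exists.mp (ne_top_of_lt hl3)
  rw [← hn] at hl1 hl2 hl3
  obtain ⟨⟨S, hS, hcard⟩, q, hq2, hq1⟩ := exists_mem_sdiff h₁ h₂ hn.symm hl1
  obtain ⟨_, p, hp1, hp2⟩ := exists_mem_sdiff h₂ h₁ (X₁ := X₂) (X₂ := X₁) (n := n) (σ := σ)
    (by rw [alignedSum_comm, Set.union_comm]; exact hn.symm) hl2
  -- `σ ≤ n`
  have hσn : (σ : ℕ∞) ≤ n := by
    rw [hn]
    refine le_trans ?_ (min_le_helly (X := X₁ ∪ X₂) (hull_sum_empty h₁ h₂) σ)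
    refine le_min ?_ le_rfl
    exact ha.trans (helly_le_encard.trans (Set.encard_le_encard subset_union_left))
  have hnσ : n ≤ σ := by
    have h2 : (n : ℕ∞) < ((σ + 1 : ℕ) : ℕ∞) := by push_cast; exact hl3
    have := Nat.cast_lt.mp h2
    omega
  have hσn' : σ ≤ n := Nat.cast_le.mp hσn
  have hpq : ({p, q} : Set α) ⊆ X₁ ∪ X₂ := by
    rintro y (rfl | rfl)
    · exact Or.inl hp1
    · exact Or.inr hq2
  have hc2 : ({p, q} : Set α).encard ≤ ((σ : ℕ∞) + 1) := by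
    refine (Set.encard_insert_le _ _).trans ?_
    rw [Set.encard_singleton]
    exact add_le_add (by exact_mod_cast hσ) le_rfl
  have hc3 : (σ : ℕ∞) + 1 ≤ (X₁ ∪ X₂).encard := by
    refine le_trans ?_ (hcard.trans (Set.encard_le_encard (hS.trans subset_union_left)))
    exact add_le_add (by exact_mod_cast hσn') le_rfl
  obtain ⟨R, hR1, hR2, hR3⟩ := Set.exists_superset_subset_encard_eq hpq hc2 hc3
  have hpR : p ∈ R := hR1 (Or.inl rfl)
  have hqR : q ∈ R := hR1 (Or.inr rfl)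
  have hcore : core (alignedSum X₁ X₂ C₁ C₂) σ R = ∅ := by
    apply Set.eq_empty_of_forall_notMem
    intro x hx
    have hsz : ∀ y ∈ R, (R \ {y}).encard ≤ (σ : ℕ∞) := by
      intro y hy
      have := Set.encard_sdiff_singleton_add_one hy
      rw [hR3] at this
      exact (ENat.add_left_injective_of_ne_top (by simp) this).le
    have e1 := hx (R \ {p}) sdiff_subset (hsz p hpR)
    have e2 := hx (R \ {q}) sdiff_subset (hsz q hqR)
    rw [Set.sdiff_sdiff_cancel_left (Set.singleton_subset_iff.mpr hpR),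
      mem_hull_sum h₁ h₂ (Set.singleton_subset_iff.mpr (Or.inl hp1))] at e1
    rw [Set.sdiff_sdiff_cancel_left (Set.singleton_subset_iff.mpr hqR),
      mem_hull_sum h₁ h₂ (Set.singleton_subset_iff.mpr (Or.inr hq2))] at e2
    rcases e1.1 with k | k
    · have := e2.2.1 k
      rw [Set.singleton_inter_eq_empty.mpr hq1, hull_empty h₁] at this
      exact this
    · have := e1.2.2 k
      rw [Set.singleton_inter_eq_empty.mpr hp2, hull_empty h₂] at this
      exact this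
  have h5 := le_helly hR2 hcore
  rw [hR3, ← hn] at h5
  have h2 : ((σ + 1 : ℕ) : ℕ∞) ≤ (n : ℕ) := by push_cast; exact h5
  have h3 := Nat.cast_le.mp h2
  omega

/-! ### The general lower bound -/

theorem core_mono (C : Set (Set α)) (σ : ℕ) {T S : Set α} (h : T ⊆ S) :
    core C σ T ⊆ core C σ S := by
  intro x hx M hM hMc
  have := hx (M ∩ T) inter_subset_right ((Set.encard_le_encard inter_subset_left).trans hMc)
  refine hull_mono C ?_ this
  rintro y ⟨hy, hy2⟩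
  exact ⟨h hy, fun hyM => hy2 ⟨hyM, hy⟩⟩

theorem exists_eq_of_le_helly {X : Set α} {C : Set (Set α)} {σ : ℕ} {n : ℕ}
    (h : (n : ℕ∞) + 1 ≤ helly X C σ) :
    ∃ S ⊆ X, S.encard = (n : ℕ∞) + 1 ∧ core C σ S = ∅ := by
  have hlt : (n : ℕ∞) < helly X C σ :=
    lt_of_lt_of_le (by
      have : ((n : ℕ) : ℕ∞) < ((n + 1 : ℕ) : ℕ∞) := Nat.cast_lt.mpr (by omega)
      push_cast at this
      exact this) h
  obtain ⟨S, hS, hcard, hc⟩ := exists_of_lt_helly hlt
  obtain ⟨T, hT, hTc⟩ := Set.exists_subset_encard_eq hcard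
  refine ⟨T, hT.trans hS, hTc, ?_⟩
  apply Set.eq_empty_of_subset_empty
  rw [← hc]
  exact core_mono C σ hT

/-- If every point of `X` is missed by one of the convex sets of the finite family `F`, and
`S` has at most `σ` points outside each of them, then the `σ`-core of `S` is empty. -/
theorem core_empty_of_family {X : Set α} {C : Set (Set α)} {σ : ℕ} {F : Finset (Set α)}
    (hFC : ∀ G ∈ F, G ∈ C) (hF : ∀ x, ∃ G ∈ F, x ∉ G) {S : Set α}
    (hS : ∀ G ∈ F, (S \ G).encard ≤ σ) : core C σ S = ∅ := by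
  apply Set.eq_empty_of_forall_notMem
  intro x hx
  obtain ⟨G, hG, hxG⟩ := hF x
  have := hx (S \ G) sdiff_subset (hS G hG)
  refine hxG (hull_subset (hFC G hG) ?_ this)
  rintro y ⟨hy, hy2⟩
  by_contra hyG
  exact hy2 ⟨hy, hyG⟩

theorem num_ineq {n k σ : ℕ} (hk : k * k < 4 * σ) (hn : n ≤ k) :
    n + n * (k + 1 - n) ≤ σ + k := by
  obtain ⟨d, rfl⟩ := Nat.exists_eq_add_of_le hn
  have h1 : n + d + 1 - n = d + 1 := by omega
  rw [h1]
  have h2 : (n + d) * (n + d) = (n * n + d * d) + 2 * (n * d) := by ring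
  have h3 : 2 * (n * d) ≤ n * n + d * d := by
    nlinarith [sq_nonneg ((n : ℤ) - d), Nat.cast_nonneg (α := ℤ) n, mul_self_nonneg ((n:ℤ)-d),
      (by exact_mod_cast (by nlinarith [mul_self_nonneg ((n:ℤ)-d)] :
        (2 * ((n:ℤ) * d)) ≤ n * n + d * d) : 2 * (n * d) ≤ n * n + d * d)]
  have h4 : n * (d + 1) = n * d + n := by ring
  rw [h4]
  -- `n = d + r` or the other way round
  rcases le_total n d with h | h
  · obtain ⟨r, rfl⟩ := Nat.exists_eq_add_of_le h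
    nlinarith [Nat.zero_le (r * r), Nat.zero_le (n * r)]
  · obtain ⟨r, rfl⟩ := Nat.exists_eq_add_of_le h
    rcases Nat.lt_or_ge r 1 with hr | hr
    · have : r = 0 := by omega
      subst this
      nlinarith
    · rcases Nat.lt_or_ge r 2 with hr2 | hr2
      · have : r = 1 := by omega
        subst this
        nlinarith
      · nlinarith [Nat.mul_le_mul hr2 hr2]

theorem general_lower {X : Set α} {C : Set (Set α)} {σ k : ℕ} (hk : k * k < 4 * σ)
    (hX : ((σ + k : ℕ) : ℕ∞) ≤ X.encard) (hsub : ∀ A ∈ C, A ⊆ X)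
    (hfam : ∃ F : Finset (Set α), (∀ G ∈ F, G ∈ C ∧ (k : ℕ∞) ≤ G.encard) ∧
      ∀ x ∈ X, ∃ G ∈ F, x ∉ G) (hne : X.Nonempty) :
    ((σ + k : ℕ) : ℕ∞) ≤ helly X C σ := by
  classical
  have hσ : 1 ≤ σ := by
    by_contra h
    have : σ = 0 := by omega
    subst this
    omega
  -- a family of least size
  obtain ⟨F, hF, hFmin⟩ : ∃ F : Finset (Set α), ((∀ G ∈ F, G ∈ C ∧ (k : ℕ∞) ≤ G.encard) ∧
      ∀ x ∈ X, ∃ G ∈ F, x ∉ G) ∧ ∀ F' : Finset (Set α),
      ((∀ G ∈ F', G ∈ C ∧ (k : ℕ∞) ≤ G.encard) ∧ ∀ x ∈ X, ∃ G ∈ F', x ∉ G) →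
        F.card ≤ F'.card := by
    have hex : ∃ n : ℕ, ∃ F : Finset (Set α), F.card = n ∧
        ((∀ G ∈ F, G ∈ C ∧ (k : ℕ∞) ≤ G.encard) ∧ ∀ x ∈ X, ∃ G ∈ F, x ∉ G) := by
      obtain ⟨F, hF⟩ := hfam
      exact ⟨F.card, F, rfl, hF⟩
    obtain ⟨F, hFc, hF⟩ := Nat.find_spec hex
    refine ⟨F, hF, fun F' hF' => ?_⟩
    rw [hFc]
    exact Nat.find_min' hex ⟨F', rfl, hF'⟩
  obtain ⟨hF1, hF2⟩ := hF
  -- special points
  have hpt : ∀ G ∈ F, ∃ x ∈ X, x ∉ G ∧ ∀ G' ∈ F, G' ≠ G → x ∈ G' := by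
    intro G hG
    by_contra hcon
    push Not at hcon
    have hbad : (∀ G' ∈ F.erase G, G' ∈ C ∧ (k : ℕ∞) ≤ G'.encard) ∧
        ∀ x ∈ X, ∃ G' ∈ F.erase G, x ∉ G' := by
      refine ⟨fun G' hG' => hF1 G' (Finset.mem_of_mem_erase hG'), fun x hx => ?_⟩
      by_cases hxG : x ∈ G
      · obtain ⟨G', hG', hxG'⟩ := hF2 x hx
        exact ⟨G', Finset.mem_erase.mpr ⟨fun h => hxG' (h ▸ hxG), hG'⟩, hxG'⟩
      · obtain ⟨G', hG', hne', hxG'⟩ := hcon x hx hxG
        exact ⟨G', Finset.mem_erase.mpr ⟨hne', hG'⟩, hxG'⟩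
    have h1 := hFmin _ hbad
    have h2 := Finset.card_erase_lt_of_mem hG
    omega
  haveI : Nonempty α := ⟨hne.some⟩
  choose! pt hptX hptG hptG' using hpt
  have hinj : Set.InjOn pt (F : Set (Set α)) := by
    intro G hG G' hG' h
    by_contra hne
    have := hptG' G hG G' hG' (fun h => hne h.symm)
    rw [h] at this
    exact hptG G' hG' this
  set T : Set α := pt '' (F : Set (Set α)) with hT
  have hTX : T ⊆ X := by
    rintro x ⟨G, hG, rfl⟩
    exact hptX G hG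
  have hTc : T.encard = (F.card : ℕ∞) := by
    rw [hT, hinj.encard_image, Set.encard_coe_eq_coe_finsetCard]
  have hTG : ∀ G ∈ F, T \ G ⊆ {pt G} := by
    rintro G hG x ⟨⟨G', hG', rfl⟩, hx⟩
    by_contra hne
    refine hx (hptG' G' hG' G hG ?_)
    rintro rfl
    exact hne rfl
  have hFC : ∀ G ∈ F, G ∈ C := fun G hG => (hF1 G hG).1
  have hFall : ∀ x, ∃ G ∈ F, x ∉ G := by
    intro x
    by_cases hx : x ∈ X
    · exact hF2 x hx
    · obtain ⟨y, hy⟩ := hne
      obtain ⟨G, hG, _⟩ := hF2 y hy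
      exact ⟨G, hG, fun h => hx (hsub G (hFC G hG) h)⟩
  -- it suffices to find a good set
  have fin : ∀ S ⊆ X, ((σ + k : ℕ) : ℕ∞) ≤ S.encard → (∀ G ∈ F, (S \ G).encard ≤ σ) →
      ((σ + k : ℕ) : ℕ∞) ≤ helly X C σ :=
    fun S hS hc hG => hc.trans (le_helly hS (core_empty_of_family (X := X) hFC hFall hG))
  have hσ1 : (1 : ℕ∞) ≤ (σ : ℕ∞) := by exact_mod_cast hσ
  rcases Nat.lt_or_ge (σ + k) F.card with hcase | hcase
  · refine fin T hTX (by rw [hTc]; exact Nat.cast_le.mpr hcase.le) ?_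
    intro G hG
    refine (Set.encard_le_encard (hTG G hG)).trans ?_
    rw [Set.encard_singleton]
    exact hσ1
  · rcases Nat.lt_or_ge k F.card with hcase2 | hcase2
    · obtain ⟨S, hTS, hSX, hSc⟩ := Set.exists_superset_subset_encard_eq hTX
        (by rw [hTc]; exact Nat.cast_le.mpr hcase) hX
      refine fin S hSX hSc.ge ?_
      intro G hG
      have h1 : S \ G ⊆ {pt G} ∪ (S \ T) := by
        rintro x ⟨hx, hxG⟩
        by_cases hxT : x ∈ T
        · exact Or.inl (hTG G hG ⟨hxT, hxG⟩)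
        · exact Or.inr ⟨hx, hxT⟩
      have h2 : (S \ T).encard + (F.card : ℕ∞) = ((σ + k : ℕ) : ℕ∞) := by
        rw [← hTc, ← hSc]
        exact Set.encard_sdiff_add_encard_of_subset hTS
      have h3 : (S \ T).encard = ((σ + k - F.card : ℕ) : ℕ∞) := by
        have h4 : ((σ + k - F.card : ℕ) : ℕ∞) + (F.card : ℕ∞) = ((σ + k : ℕ) : ℕ∞) := by
          have : σ + k - F.card + F.card = σ + k := by omega
          exact_mod_cast this
        rw [← h4] at h2
        exact ENat.add_left_injective_of_ne_top (by simp) h2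
      refine (Set.encard_le_encard h1).trans ((Set.encard_union_le _ _).trans ?_)
      rw [Set.encard_singleton, h3]
      have : ((1 + (σ + k - F.card) : ℕ) : ℕ∞) ≤ (σ : ℕ∞) := Nat.cast_le.mpr (by omega)
      refine le_trans (le_of_eq ?_) this
      push_cast
      rfl
    · -- the main case
      have hW : ∀ G ∈ F, ∃ W, T ∩ G ⊆ W ∧ W ⊆ G ∧ W.encard = (k : ℕ∞) := by
        intro G hG
        refine Set.exists_superset_subset_encard_eq inter_subset_right ?_ (hF1 G hG).2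
        refine (Set.encard_le_encard inter_subset_left).trans ?_
        rw [hTc]
        exact Nat.cast_le.mpr hcase2
      choose! W hW1 hW2 hW3 using hW
      have hWT : ∀ G ∈ F, (W G \ T).encard ≤ ((k + 1 - F.card : ℕ) : ℕ∞) := by
        intro G hG
        have h1 := Set.encard_sdiff_add_encard_of_subset (hW1 G hG)
        have h2 : (F.card : ℕ∞) ≤ (T ∩ G).encard + 1 := by
          rw [← hTc]
          have : T ⊆ (T ∩ G) ∪ {pt G} := by
            intro x hx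
            by_cases hxG : x ∈ G
            · exact Or.inl ⟨hx, hxG⟩
            · exact Or.inr (hTG G hG ⟨hx, hxG⟩)
          refine (Set.encard_le_encard this).trans ((Set.encard_union_le _ _).trans ?_)
          rw [Set.encard_singleton]
        have h3 : W G \ T ⊆ W G \ (T ∩ G) := fun x hx => ⟨hx.1, fun h => hx.2 h.1⟩
        refine (Set.encard_le_encard h3).trans ?_
        rw [hW3 G hG] at h1
        have h4 : (W G \ (T ∩ G)).encard + (F.card : ℕ∞) ≤ ((k + 1 - F.card : ℕ) : ℕ∞) +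
            (F.card : ℕ∞) := by
          calc (W G \ (T ∩ G)).encard + (F.card : ℕ∞)
              ≤ (W G \ (T ∩ G)).encard + ((T ∩ G).encard + 1) := add_le_add le_rfl h2
            _ = (k : ℕ∞) + 1 := by rw [← add_assoc, h1]
            _ = ((k + 1 - F.card : ℕ) : ℕ∞) + (F.card : ℕ∞) := by
                have : k + 1 = k + 1 - F.card + F.card := by omega
                exact_mod_cast this
        exact (ENat.add_le_add_iff_right (by simp)).mp h4
      have hU : ∀ F' : Finset (Set α), F' ⊆ F →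
          (⋃ G ∈ F', (W G \ T)).encard ≤ ((F'.card * (k + 1 - F.card) : ℕ) : ℕ∞) := by
        intro F'
        induction F' using Finset.induction_on with
        | empty => intro _; simp
        | insert G F' hG ih =>
          intro hsub'
          rw [Finset.set_biUnion_insert, Finset.card_insert_of_notMem hG]
          refine (Set.encard_union_le _ _).trans ?_
          have h1 := hWT G (hsub' (Finset.mem_insert_self _ _))
          have h2 := ih (fun x hx => hsub' (Finset.mem_insert_of_mem hx))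
          refine (add_le_add h1 h2).trans (le_of_eq ?_)
          push_cast
          ring
      set S₀ : Set α := T ∪ ⋃ G ∈ F, (W G \ T) with hS₀
      have hS₀X : S₀ ⊆ X := by
        rintro x (hx | hx)
        · exact hTX hx
        · simp only [Set.mem_iUnion] at hx
          obtain ⟨G, hG, hx⟩ := hx
          exact hsub G (hFC G hG) (hW2 G hG hx.1)
      have hS₀c : S₀.encard ≤ ((σ + k : ℕ) : ℕ∞) := by
        refine (Set.encard_union_le _ _).trans ?_
        refine (add_le_add hTc.le (hU F (Finset.Subset.refl _))).trans ?_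
        have := num_ineq hk hcase2
        exact_mod_cast this
      obtain ⟨S, hS1, hS2, hS3⟩ := Set.exists_superset_subset_encard_eq hS₀X hS₀c hX
      refine fin S hS2 hS3.ge ?_
      intro G hG
      have hWS : W G ⊆ S := by
        intro x hx
        by_cases hxT : x ∈ T
        · exact hS1 (Or.inl hxT)
        · refine hS1 (Or.inr ?_)
          simp only [Set.mem_iUnion]
          exact ⟨G, hG, hx, hxT⟩
      have h1 : S \ G ⊆ S \ W G := fun x hx => ⟨hx.1, fun h => hx.2 (hW2 G hG h)⟩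
      have h2 := Set.encard_sdiff_add_encard_of_subset hWS
      rw [hS3, hW3 G hG] at h2
      refine (Set.encard_le_encard h1).trans ?_
      have h3 : (S \ W G).encard + (k : ℕ∞) ≤ (σ : ℕ∞) + (k : ℕ∞) := by
        rw [h2]
        push_cast
        exact le_rfl
      exact (ENat.add_le_add_iff_right (by simp)).mp h3

theorem lower_helly_sum {X₁ X₂ : Set α} {C₁ C₂ : Set (Set α)} (h₁ : IsAligned X₁ C₁)
    (h₂ : IsAligned X₂ C₂) {σ k : ℕ} (hk0 : 1 ≤ k) (hk : k * k < 4 * σ)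
    (ha : ((σ + k : ℕ) : ℕ∞) ≤ helly X₁ C₁ σ) (hb : ((σ + k : ℕ) : ℕ∞) ≤ helly X₂ C₂ σ) :
    ((σ + k : ℕ) : ℕ∞) ≤ helly (X₁ ∪ X₂) (alignedSum X₁ X₂ C₁ C₂) σ := by
  classical
  have hn : ((σ + k : ℕ) : ℕ∞) = ((σ + k - 1 : ℕ) : ℕ∞) + 1 := by
    have : σ + k = σ + k - 1 + 1 := by omega
    exact_mod_cast this
  obtain ⟨S₁, hS₁, hS₁c, hc₁⟩ := exists_eq_of_le_helly (n := σ + k - 1) (by rw [← hn]; exact ha)
  obtain ⟨S₂, hS₂, hS₂c, hc₂⟩ := exists_eq_of_le_helly (n := σ + k - 1) (by rw [← hn]; exact hb)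
  rw [← hn] at hS₁c hS₂c
  have f1 : S₁.Finite := Set.finite_of_encard_eq_coe hS₁c
  have f2 : S₂.Finite := Set.finite_of_encard_eq_coe hS₂c
  have leftover : ∀ S : Set α, S.encard = ((σ + k : ℕ) : ℕ∞) → ∀ C : Set (Set α),
      core C σ S = ∅ → ∀ x, ∃ K ⊆ S, (k : ℕ∞) ≤ K.encard ∧ x ∉ hull C K := by
    intro S hSc C hc x
    have hx : x ∉ core C σ S := by rw [hc]; exact Set.notMem_empty _
    simp only [core, Set.mem_ofPred_eq, not_forall] at hx
    obtain ⟨M, hM, hMc, hxM⟩ := hx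
    refine ⟨S \ M, sdiff_subset, ?_, hxM⟩
    have h1 := Set.encard_sdiff_add_encard_of_subset hM
    have h2 : (k : ℕ∞) + (σ : ℕ∞) ≤ (S \ M).encard + (σ : ℕ∞) := by
      calc (k : ℕ∞) + (σ : ℕ∞) = S.encard := by rw [hSc, add_comm]; push_cast; rfl
        _ = (S \ M).encard + M.encard := h1.symm
        _ ≤ _ := add_le_add le_rfl hMc
    exact (ENat.add_le_add_iff_right (by simp)).mp h2
  have hsumsub : ∀ A ∈ alignedSum X₁ X₂ C₁ C₂, A ⊆ X₁ ∪ X₂ := by
    rintro _ ⟨A, hA, B, hB, rfl⟩ x ((hx | hx) | hx)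
    · exact Or.inl (h₁.sub A hA hx.1)
    · exact Or.inr (h₂.sub B hB hx.1)
    · exact Or.inl (h₁.sub A hA hx.1)
  -- the convex hull in the sum, as a member of the sum
  have hmem : ∀ K ⊆ X₁ ∪ X₂, hull (alignedSum X₁ X₂ C₁ C₂) K ∈ alignedSum X₁ X₂ C₁ C₂ := by
    intro K hK
    refine ⟨_, hull_mem h₁ (S := K ∩ X₁) inter_subset_right, _,
      hull_mem h₂ (S := K ∩ X₂) inter_subset_right, ?_⟩
    ext x
    rw [mem_hull_sum h₁ h₂ hK]
    have i1 := h₁.sub _ (hull_mem h₁ (S := K ∩ X₁) inter_subset_right)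
    have i2 := h₂.sub _ (hull_mem h₂ (S := K ∩ X₂) inter_subset_right)
    simp only [Set.mem_union, Set.mem_sdiff, Set.mem_inter_iff]
    constructor
    · rintro ⟨hx, a1, a2⟩
      by_cases k1 : x ∈ X₁ <;> by_cases k2 : x ∈ X₂ <;> tauto
    · rintro ((⟨a, b⟩ | ⟨a, b⟩) | ⟨a, b⟩)
      · exact ⟨Or.inl (i1 a), fun _ => a, fun h => absurd h b⟩
      · exact ⟨Or.inr (i2 a), fun h => absurd h b, fun _ => a⟩
      · exact ⟨Or.inl (i1 a), fun _ => a, fun _ => b⟩
  have hfin : (hull (alignedSum X₁ X₂ C₁ C₂) '' ({K | K ⊆ S₁ ∧ (k : ℕ∞) ≤ K.encard} ∪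
      {K | K ⊆ S₂ ∧ (k : ℕ∞) ≤ K.encard})).Finite := by
    apply Set.Finite.image
    exact (f1.finite_subsets.subset (fun K hK => hK.1)).union
      (f2.finite_subsets.subset (fun K hK => hK.1))
  have hXc : ((σ + k : ℕ) : ℕ∞) ≤ (X₁ ∪ X₂).encard := by
    rw [← hS₁c]
    exact Set.encard_le_encard (hS₁.trans subset_union_left)
  refine general_lower hk hXc hsumsub ⟨hfin.toFinset, ?_, ?_⟩ ?_
  · intro G hG
    rw [Set.Finite.mem_toFinset] at hG
    obtain ⟨K, hK, rfl⟩ := hG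
    rcases hK with ⟨hK, hKc⟩ | ⟨hK, hKc⟩
    · exact ⟨hmem K (hK.trans (hS₁.trans subset_union_left)),
        hKc.trans (Set.encard_le_encard (subset_hull _ _))⟩
    · exact ⟨hmem K (hK.trans (hS₂.trans subset_union_right)),
        hKc.trans (Set.encard_le_encard (subset_hull _ _))⟩
  · rintro x (hx | hx)
    · obtain ⟨K, hK, hKc, hxK⟩ := leftover S₁ hS₁c C₁ hc₁ x
      refine ⟨hull (alignedSum X₁ X₂ C₁ C₂) K, ?_, ?_⟩
      · rw [Set.Finite.mem_toFinset]
        exact ⟨K, Or.inl ⟨hK, hKc⟩, rfl⟩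
      · intro h
        rw [mem_hull_sum h₁ h₂ (hK.trans (hS₁.trans subset_union_left))] at h
        exact hxK (hull_mono C₁ inter_subset_left (h.2.1 hx))
    · obtain ⟨K, hK, hKc, hxK⟩ := leftover S₂ hS₂c C₂ hc₂ x
      refine ⟨hull (alignedSum X₁ X₂ C₁ C₂) K, ?_, ?_⟩
      · rw [Set.Finite.mem_toFinset]
        exact ⟨K, Or.inr ⟨hK, hKc⟩, rfl⟩
      · intro h
        rw [mem_hull_sum h₁ h₂ (hK.trans (hS₂.trans subset_union_right))] at h
        exact hxK (hull_mono C₂ inter_subset_left (h.2.2 hx))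
  · have : (1 : ℕ∞) ≤ (X₁ ∪ X₂).encard := by
      refine le_trans ?_ hXc
      have : ((1 : ℕ) : ℕ∞) ≤ ((σ + k : ℕ) : ℕ∞) := Nat.cast_le.mpr (by omega)
      simpa using this
    exact Set.one_le_encard_iff_nonempty.mp this

/-! ### Sums of pointed alignments -/

theorem mem_hull_sum_ptd {X₁ X₂ T₁ T₂ : Set α} {p₁ p₂ : α} (hT₁ : T₁ ⊆ X₁) (hT₂ : T₂ ⊆ X₂)
    (hp₁ : T₁.Nonempty → p₁ ∈ T₁) (hp₂ : T₂.Nonempty → p₂ ∈ T₂) {S : Set α}
    (hS : S ⊆ X₁ ∪ X₂) (x : α) :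
    x ∈ hull (alignedSum X₁ X₂ (ptd X₁ T₁ p₁) (ptd X₂ T₂ p₂)) S ↔
      x ∈ X₁ ∪ X₂ ∧ (x ∈ X₁ → x ∈ S ∨ (x = p₁ ∧ (S ∩ T₁).Nonempty)) ∧
        (x ∈ X₂ → x ∈ S ∨ (x = p₂ ∧ (S ∩ T₂).Nonempty)) := by
  rw [mem_hull_sum (isAligned_ptd hT₁ hp₁) (isAligned_ptd hT₂ hp₂) hS,
    mem_hull_ptd hT₁ hp₁ inter_subset_right, mem_hull_ptd hT₂ hp₂ inter_subset_right]
  have e1 : S ∩ X₁ ∩ T₁ = S ∩ T₁ := by
    rw [Set.inter_assoc, Set.inter_eq_right.mpr hT₁]
  have e2 : S ∩ X₂ ∩ T₂ = S ∩ T₂ := by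
    rw [Set.inter_assoc, Set.inter_eq_right.mpr hT₂]
  rw [e1, e2]
  simp only [Set.mem_inter_iff]
  tauto

theorem isTP_sum {X₁ X₂ T₁ T₂ : Set α} {p₁ p₂ : α} (hT₁ : T₁ ⊆ X₁) (hT₂ : T₂ ⊆ X₂)
    (hp₁ : T₁.Nonempty → p₁ ∈ T₁) (hp₂ : T₂.Nonempty → p₂ ∈ T₂)
    (hn₁ : T₁.Nonempty → p₁ ∉ X₂) (hn₂ : T₂.Nonempty → p₂ ∉ X₁) :
    IsTP (X₁ ∪ X₂) (alignedSum X₁ X₂ (ptd X₁ T₁ p₁) (ptd X₂ T₂ p₂)) T₁ T₂ p₁ p₂ := by
  intro S hS x
  rw [mem_hull_sum_ptd hT₁ hT₂ hp₁ hp₂ hS]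
  constructor
  · rintro ⟨hx | hx, h1, h2⟩
    · rcases h1 hx with h | h
      · exact Or.inl h
      · exact Or.inr (Or.inl h)
    · rcases h2 hx with h | h
      · exact Or.inl h
      · exact Or.inr (Or.inr h)
  · rintro (hx | ⟨rfl, hne⟩ | ⟨rfl, hne⟩)
    · exact ⟨hS hx, fun _ => Or.inl hx, fun _ => Or.inl hx⟩
    · have hT : T₁.Nonempty := hne.mono inter_subset_right
      exact ⟨Or.inl (hT₁ (hp₁ hT)), fun _ => Or.inr ⟨rfl, hne⟩, fun h => absurd h (hn₁ hT)⟩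
    · have hT : T₂.Nonempty := hne.mono inter_subset_right
      exact ⟨Or.inr (hT₂ (hp₂ hT)), fun h => absurd h (hn₂ hT), fun _ => Or.inr ⟨rfl, hne⟩⟩

/-- A free summand `X₁` containing the forced point `p₂` makes the sum free. -/
theorem isTP_sum_free {X₁ X₂ T₂ : Set α} {p₁ p₂ : α} (hT₂ : T₂ ⊆ X₂)
    (hp₂ : T₂.Nonempty → p₂ ∈ T₂) (hn₂ : p₂ ∈ X₁) :
    IsTP (X₁ ∪ X₂) (alignedSum X₁ X₂ (ptd X₁ ∅ p₁) (ptd X₂ T₂ p₂)) ∅ ∅ p₁ p₂ := by
  intro S hS x
  rw [mem_hull_sum_ptd (empty_subset _) hT₂ (by simp) hp₂ hS]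
  simp only [Set.inter_empty, Set.not_nonempty_empty, and_false, or_false]
  constructor
  · rintro ⟨hx | hx, h1, h2⟩
    · exact h1 hx
    · rcases h2 hx with h | ⟨rfl, h⟩
      · exact h
      · exact h1 hn₂
  · intro hx
    exact ⟨hS hx, fun _ => hx, fun _ => Or.inl hx⟩

/-! ### Rows of prescribed size -/

/-- The first `m` points of the `i`-th row of `ℕ × ℕ`. -/
def row (i : ℕ) (m : ℕ∞) : Set (ℕ × ℕ) := {x | x.1 = i ∧ (x.2 : ℕ∞) < m}

theorem encard_row (i : ℕ) (m : ℕ∞) : (row i m).encard = m := by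
  have h1 : row i m = (fun n : ℕ => (i, n)) '' {n : ℕ | (n : ℕ∞) < m} := by
    ext ⟨x, y⟩
    simp only [row, Set.mem_ofPred_eq, Set.mem_image, Prod.mk.injEq]
    constructor
    · rintro ⟨rfl, h⟩
      exact ⟨y, h, rfl, rfl⟩
    · rintro ⟨n, h, rfl, rfl⟩
      exact ⟨rfl, h⟩
  rw [h1, Function.Injective.encard_image (fun a b h => by simpa using h)]
  induction m using ENat.recTopCoe with
  | top =>
    have : {n : ℕ | (n : ℕ∞) < ⊤} = Set.univ := by
      ext n; simp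
    rw [this]
    simp
  | coe k =>
    have : {n : ℕ | (n : ℕ∞) < (k : ℕ∞)} = ((Finset.range k : Finset ℕ) : Set ℕ) := by
      ext n; simp
    rw [this, Set.encard_coe_eq_coe_finsetCard, Finset.card_range]

theorem row_disjoint {i j : ℕ} (h : i ≠ j) (m n : ℕ∞) : Disjoint (row i m) (row j n) := by
  rw [Set.disjoint_left]
  rintro x ⟨h1, _⟩ ⟨h2, _⟩
  exact h (h1.symm.trans h2)


theorem row_mono (i : ℕ) {m n : ℕ∞} (h : m ≤ n) : row i m ⊆ row i n :=
  fun _ hx => ⟨hx.1, hx.2.trans_le h⟩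

/-- The free alignment. -/
theorem helly_free (X : Set α) (p : α) {σ : ℕ} (hσ : 1 ≤ σ) :
    helly X (ptd X ∅ p) σ = X.encard := by
  rw [helly_ptd (empty_subset _) (by simp) hσ]
  simp

theorem isAligned_free (X : Set α) (p : α) : IsAligned X (ptd X ∅ p) :=
  isAligned_ptd (empty_subset _) (by simp)

theorem helly_free_sum (X₁ X₂ : Set α) (p : α) {σ : ℕ} (hσ : 1 ≤ σ) :
    helly (X₁ ∪ X₂) (alignedSum X₁ X₂ (ptd X₁ ∅ p) (ptd X₂ ∅ p)) σ = (X₁ ∪ X₂).encard := by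
  rw [helly_tp (isTP_sum (empty_subset _) (empty_subset _) (by simp) (by simp) (by simp)
    (by simp)) (disjoint_empty _) (empty_subset _) (empty_subset _) (by simp) (by simp) hσ]
  simp

theorem max_mem (σ : ℕ) (hσ : 1 ≤ σ) (a b : ℕ∞) : max a b ∈ SumValues σ a b := by
  refine ⟨ℕ × ℕ, row 0 a, row 0 b, ptd (row 0 a) ∅ (0, 0), ptd (row 0 b) ∅ (0, 0),
    isAligned_free _ _, isAligned_free _ _, ?_, ?_, ?_⟩
  · rw [helly_free _ _ hσ, encard_row]
  · rw [helly_free _ _ hσ, encard_row]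
  · rw [helly_free_sum _ _ _ hσ]
    rcases le_total a b with h | h
    · rw [Set.union_eq_right.mpr (row_mono 0 h), encard_row, max_eq_right h]
    · rw [Set.union_eq_left.mpr (row_mono 0 h), encard_row, max_eq_left h]

theorem add_mem (σ : ℕ) (hσ : 1 ≤ σ) (a b : ℕ∞) : a + b ∈ SumValues σ a b := by
  refine ⟨ℕ × ℕ, row 0 a, row 1 b, ptd (row 0 a) ∅ (0, 0), ptd (row 1 b) ∅ (0, 0),
    isAligned_free _ _, isAligned_free _ _, ?_, ?_, ?_⟩
  · rw [helly_free _ _ hσ, encard_row]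
  · rw [helly_free _ _ hσ, encard_row]
  · rw [helly_free_sum _ _ _ hσ, Set.encard_union_eq (row_disjoint (by norm_num) _ _),
      encard_row, encard_row]

theorem top_mem_aux (σ : ℕ) (hσ : 1 ≤ σ) (a b : ℕ∞) (ha : 1 ≤ a) (hb : (σ : ℕ∞) ≤ b) :
    (⊤ : ℕ∞) ∈ SumValues σ a b := by
  have hp : ((0, 0) : ℕ × ℕ) ∈ row 0 a := by
    refine ⟨rfl, ?_⟩
    exact lt_of_lt_of_le (by norm_num) ha
  have hp2 : ((0, 0) : ℕ × ℕ) ∈ row 0 ⊤ := row_mono 0 le_top hp
  have hT : row 0 ⊤ ⊆ row 0 ⊤ ∪ row 1 (b - σ) := subset_union_left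
  refine ⟨ℕ × ℕ, row 0 a, row 0 ⊤ ∪ row 1 (b - σ), ptd (row 0 a) ∅ (0, 0),
    ptd (row 0 ⊤ ∪ row 1 (b - σ)) (row 0 ⊤) (0, 0),
    isAligned_free _ _, isAligned_ptd hT (fun _ => hp2), ?_, ?_, ?_⟩
  · rw [helly_free _ _ hσ, encard_row]
  · rw [helly_ptd hT (fun _ => hp2) hσ, Set.union_sdiff_left,
      (row_disjoint (by norm_num) _ _ : Disjoint (row 1 (b - σ)) (row 0 ⊤)).sdiff_eq_left,
      encard_row, encard_row, min_eq_right le_top, tsub_add_cancel_of_le hb]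
  · rw [helly_tp (isTP_sum_free hT (fun _ => hp2) hp) (disjoint_empty _) (empty_subset _)
      (empty_subset _) (by simp) (by simp) hσ]
    simp only [Set.union_empty, Set.sdiff_empty, Set.encard_empty]
    have : (⊤ : ℕ∞) ≤ (row 0 a ∪ (row 0 ⊤ ∪ row 1 (b - σ))).encard := by
      calc (⊤ : ℕ∞) = (row 0 ⊤).encard := (encard_row 0 ⊤).symm
        _ ≤ _ := Set.encard_le_encard (hT.trans subset_union_right)
    rw [top_le_iff.mp this]
    simp

theorem top_mem (σ : ℕ) (hσ : 1 ≤ σ) (a b : ℕ∞)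
    (h : ¬ (a = 0 ∨ b = 0 ∨ (a < σ ∧ b < σ))) : (⊤ : ℕ∞) ∈ SumValues σ a b := by
  push Not at h
  obtain ⟨h1, h2, h3⟩ := h
  rw [← Order.one_le_iff_ne_zero] at h1 h2
  rcases lt_or_ge a (σ : ℕ∞) with h4 | h4
  · exact top_mem_aux σ hσ a b h1 (h3 h4)
  · rw [sumValues_comm]
    exact top_mem_aux σ hσ b a h2 h4

/-- With `a, b ≥ σ` the value `a` is attained. -/
theorem left_mem (σ : ℕ) (hσ : 1 ≤ σ) (a b : ℕ∞) (ha : (σ : ℕ∞) ≤ a) (hb : (σ : ℕ∞) ≤ b) :
    a ∈ SumValues σ a b := by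
  have hpT : ((1, 0) : ℕ × ℕ) ∈ row 0 b ∪ row 1 1 := Or.inr ⟨rfl, by norm_num⟩
  have hp2 : ((1, 0) : ℕ × ℕ) ∉ row 0 b := fun h => absurd h.1 (by norm_num)
  have hT : row 0 b ∪ row 1 1 ⊆ (row 0 b ∪ row 1 1) ∪ row 2 (a - σ) := subset_union_left
  have hdj : Disjoint (row 2 (a - σ)) (row 0 b ∪ row 1 1) :=
    Set.disjoint_union_right.mpr ⟨row_disjoint (by norm_num) _ _, row_disjoint (by norm_num) _ _⟩
  have hTc : (σ : ℕ∞) ≤ (row 0 b ∪ row 1 1).encard := by
    refine hb.trans ?_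
    calc b = (row 0 b).encard := (encard_row 0 b).symm
      _ ≤ _ := Set.encard_le_encard subset_union_left
  refine ⟨ℕ × ℕ, (row 0 b ∪ row 1 1) ∪ row 2 (a - σ), row 0 b,
    ptd ((row 0 b ∪ row 1 1) ∪ row 2 (a - σ)) (row 0 b ∪ row 1 1) (1, 0),
    ptd (row 0 b) ∅ (0, 0),
    isAligned_ptd hT (fun _ => hpT), isAligned_free _ _, ?_, ?_, ?_⟩
  · rw [helly_ptd hT (fun _ => hpT) hσ, Set.union_sdiff_left, hdj.sdiff_eq_left, encard_row,
      min_eq_right hTc, tsub_add_cancel_of_le ha]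
  · rw [helly_free _ _ hσ, encard_row]
  · have hX : (row 0 b ∪ row 1 1) ∪ row 2 (a - σ) ∪ row 0 b =
        (row 0 b ∪ row 1 1) ∪ row 2 (a - σ) :=
      Set.union_eq_left.mpr (subset_union_left.trans subset_union_left)
    rw [helly_tp (isTP_sum hT (empty_subset _) (fun _ => hpT) (by simp) (fun _ => hp2) (by simp))
      (disjoint_empty _) (hT.trans subset_union_left) (empty_subset _) (fun _ => hpT) (by simp) hσ,
      hX, Set.union_empty, Set.union_sdiff_left, hdj.sdiff_eq_left, encard_row,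
      min_eq_right hTc]
    simp only [Set.encard_empty]
    rw [min_eq_left (zero_le), add_zero, tsub_add_cancel_of_le ha]

/-- With `a, b ≥ 2σ` the value `2σ` is attained. -/
theorem two_mul_mem (σ : ℕ) (hσ : 1 ≤ σ) (a b : ℕ∞) (ha : 2 * (σ : ℕ∞) ≤ a)
    (hb : 2 * (σ : ℕ∞) ≤ b) : 2 * (σ : ℕ∞) ∈ SumValues σ a b := by
  have ha1 : (σ : ℕ∞) ≤ a := le_trans (by rw [two_mul]; exact le_self_add) ha
  have hb1 : (σ : ℕ∞) ≤ b := le_trans (by rw [two_mul]; exact le_self_add) hb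
  have ha2 : (σ : ℕ∞) ≤ a - σ := ENat.le_sub_of_add_le_left (by simp) (by rwa [← two_mul])
  have hb2 : (σ : ℕ∞) ≤ b - σ := ENat.le_sub_of_add_le_left (by simp) (by rwa [← two_mul])
  set D₀ := row 0 (a - σ) with hD₀
  set D₁ := row 1 (b - σ) with hD₁
  have d01 : Disjoint D₀ D₁ := row_disjoint (by norm_num) _ _
  have d02 : Disjoint D₀ (row 2 1) := row_disjoint (by norm_num) _ _
  have d13 : Disjoint D₁ (row 3 1) := row_disjoint (by norm_num) _ _
  have d12 : Disjoint D₁ (row 2 1) := row_disjoint (by norm_num) _ _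
  have d03 : Disjoint D₀ (row 3 1) := row_disjoint (by norm_num) _ _
  have d23 : Disjoint (row 2 1) (row 3 1) := row_disjoint (by norm_num) _ _
  have hp : ((2, 0) : ℕ × ℕ) ∈ D₁ ∪ row 2 1 := Or.inr ⟨rfl, by norm_num⟩
  have hq : ((3, 0) : ℕ × ℕ) ∈ D₀ ∪ row 3 1 := Or.inr ⟨rfl, by norm_num⟩
  have hp2 : ((2, 0) : ℕ × ℕ) ∉ D₁ ∪ (D₀ ∪ row 3 1) := by
    rintro (h | h | h) <;> exact absurd h.1 (by norm_num)
  have hq1 : ((3, 0) : ℕ × ℕ) ∉ D₀ ∪ (D₁ ∪ row 2 1) := by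
    rintro (h | h | h) <;> exact absurd h.1 (by norm_num)
  have hT1 : D₁ ∪ row 2 1 ⊆ D₀ ∪ (D₁ ∪ row 2 1) := subset_union_right
  have hT2 : D₀ ∪ row 3 1 ⊆ D₁ ∪ (D₀ ∪ row 3 1) := subset_union_right
  have dj1 : Disjoint D₀ (D₁ ∪ row 2 1) := Set.disjoint_union_right.mpr ⟨d01, d02⟩
  have dj2 : Disjoint D₁ (D₀ ∪ row 3 1) := Set.disjoint_union_right.mpr ⟨d01.symm, d13⟩
  have dj12 : Disjoint (D₁ ∪ row 2 1) (D₀ ∪ row 3 1) :=
    Set.disjoint_union_left.mpr ⟨dj2, Set.disjoint_union_right.mpr ⟨d02.symm, d23⟩⟩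
  have c1 : (σ : ℕ∞) ≤ (D₁ ∪ row 2 1).encard :=
    hb2.trans ((encard_row 1 (b - σ)).symm.le.trans (Set.encard_le_encard subset_union_left))
  have c2 : (σ : ℕ∞) ≤ (D₀ ∪ row 3 1).encard :=
    ha2.trans ((encard_row 0 (a - σ)).symm.le.trans (Set.encard_le_encard subset_union_left))
  refine ⟨ℕ × ℕ, D₀ ∪ (D₁ ∪ row 2 1), D₁ ∪ (D₀ ∪ row 3 1),
    ptd (D₀ ∪ (D₁ ∪ row 2 1)) (D₁ ∪ row 2 1) (2, 0),
    ptd (D₁ ∪ (D₀ ∪ row 3 1)) (D₀ ∪ row 3 1) (3, 0),
    isAligned_ptd hT1 (fun _ => hp), isAligned_ptd hT2 (fun _ => hq), ?_, ?_, ?_⟩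
  · rw [helly_ptd hT1 (fun _ => hp) hσ, Set.union_sdiff_right, dj1.sdiff_eq_left, encard_row,
      min_eq_right c1, tsub_add_cancel_of_le ha1]
  · rw [helly_ptd hT2 (fun _ => hq) hσ, Set.union_sdiff_right, dj2.sdiff_eq_left, encard_row,
      min_eq_right c2, tsub_add_cancel_of_le hb1]
  · rw [helly_tp (isTP_sum hT1 hT2 (fun _ => hp) (fun _ => hq) (fun _ => hp2) (fun _ => hq1))
      dj12 (hT1.trans subset_union_left) (hT2.trans subset_union_right) (fun _ => hp)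
      (fun _ => hq) hσ, min_eq_right c1, min_eq_right c2]
    have : (D₀ ∪ (D₁ ∪ row 2 1) ∪ (D₁ ∪ (D₀ ∪ row 3 1))) \ (D₁ ∪ row 2 1 ∪ (D₀ ∪ row 3 1)) = ∅ := by
      rw [Set.sdiff_eq_empty]
      intro x hx
      simp only [Set.mem_union] at hx ⊢
      tauto
    rw [this, Set.encard_empty, zero_add, two_mul]

/-! ### A family of examples below `2σ` -/

/-- The alignment on `X` generated by two disjoint sets `A₀, A₁`. -/
def duo (X A₀ A₁ : Set α) : Set (Set α) :=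
  {A | A ⊆ X ∧ ∀ x ∈ A, ∀ y ∈ A, ∀ z ∈ X, (x ∈ A₀ ∧ y ∈ A₀ → z ∈ A₀) →
    (x ∈ A₁ ∧ y ∈ A₁ → z ∈ A₁) → z ∈ A}

theorem isAligned_duo (X A₀ A₁ : Set α) : IsAligned X (duo X A₀ A₁) where
  sub := fun A hA => hA.1
  empty_mem := ⟨empty_subset _, fun x hx => absurd hx (Set.notMem_empty _)⟩
  univ_mem := ⟨subset_rfl, fun x _ y _ z hz _ _ => hz⟩
  sInter_mem := by
    rintro F hF ⟨A, hA⟩
    refine ⟨(sInter_subset_of_mem hA).trans (hF hA).1, ?_⟩
    intro x hx y hy z hz h0 h1 B hB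
    exact (hF hB).2 x (hx B hB) y (hy B hB) z hz h0 h1
  chain_mem := by
    rintro F hF - hch
    refine ⟨sUnion_subset (fun A hA => (hF hA).1), ?_⟩
    rintro x ⟨A, hA, hxA⟩ y ⟨B, hB, hyB⟩ z hz h0 h1
    rcases hch.total hA hB with h | h
    · exact ⟨B, hB, (hF hB).2 x (h hxA) y hyB z hz h0 h1⟩
    · exact ⟨A, hA, (hF hA).2 x hxA y (h hyB) z hz h0 h1⟩

theorem mem_hull_duo {X A₀ A₁ : Set α} (hd : Disjoint A₀ A₁) {S : Set α} (hS : S ⊆ X)
    (hne : S.Nonempty) (z : α) :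
    z ∈ hull (duo X A₀ A₁) S ↔ z ∈ X ∧ (S ⊆ A₀ → z ∈ A₀) ∧ (S ⊆ A₁ → z ∈ A₁) := by
  constructor
  · intro hz
    have hm : {z | z ∈ X ∧ (S ⊆ A₀ → z ∈ A₀) ∧ (S ⊆ A₁ → z ∈ A₁)} ∈ duo X A₀ A₁ := by
      refine ⟨fun z hz => hz.1, ?_⟩
      intro x hx y hy z hz h0 h1
      exact ⟨hz, fun h => h0 ⟨hx.2.1 h, hy.2.1 h⟩, fun h => h1 ⟨hx.2.2 h, hy.2.2 h⟩⟩
    have hs : S ⊆ {z | z ∈ X ∧ (S ⊆ A₀ → z ∈ A₀) ∧ (S ⊆ A₁ → z ∈ A₁)} :=
      fun s hs => ⟨hS hs, fun h => h hs, fun h => h hs⟩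
    exact hull_subset hm hs hz
  · rintro ⟨hz, h0, h1⟩ A ⟨hA, hSA⟩
    obtain ⟨s, hs⟩ := hne
    by_cases k0 : S ⊆ A₀
    · refine hA.2 s (hSA hs) s (hSA hs) z hz (fun _ => h0 k0) ?_
      rintro ⟨h, _⟩
      exact absurd h (Set.disjoint_left.mp hd (k0 hs))
    · by_cases k1 : S ⊆ A₁
      · refine hA.2 s (hSA hs) s (hSA hs) z hz ?_ (fun _ => h1 k1)
        rintro ⟨h, _⟩
        exact absurd (k1 hs) (Set.disjoint_left.mp hd h)
      · rw [Set.not_subset] at k0 k1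
        obtain ⟨u, hu, hu0⟩ := k0
        obtain ⟨v, hv, hv1⟩ := k1
        exact hA.2 u (hSA hu) v (hSA hv) z hz (fun h => absurd h.1 hu0)
          (fun h => absurd h.2 hv1)

theorem helly_duo {X A₀ A₁ : Set α} (hd : Disjoint A₀ A₁) (h0 : A₀ ⊆ X) (h1 : A₁ ⊆ X)
    {σ : ℕ} (hσ : 1 ≤ σ) (hc0 : (σ : ℕ∞) ≤ A₀.encard) (hc1 : (σ : ℕ∞) ≤ A₁.encard) :
    helly X (duo X A₀ A₁) σ = 2 * (σ : ℕ∞) := by
  have hσ' : (1 : ℕ∞) ≤ σ := by exact_mod_cast hσ
  have hE := hull_empty (isAligned_duo X A₀ A₁)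
  apply le_antisymm
  · refine helly_le ?_
    intro S hS hc
    by_contra hlt
    rw [not_le] at hlt
    -- nonemptiness of the leftovers
    have hbig : ∀ M ⊆ S, M.encard ≤ (σ : ℕ∞) → (S \ M).Nonempty := by
      intro M hM hMc
      by_contra hcon
      rw [Set.not_nonempty_iff_eq_empty, Set.sdiff_eq_empty] at hcon
      have h5 := (Set.encard_le_encard hcon).trans hMc
      refine absurd hlt (not_lt.mpr (h5.trans ?_))
      rw [two_mul]
      exact le_self_add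
    have hcase : (σ : ℕ∞) < (S \ A₀).encard ∨ (σ : ℕ∞) < (S \ A₁).encard := by
      by_contra hcon
      push Not at hcon
      have hsub : S ⊆ (S \ A₀) ∪ (S \ A₁) := by
        intro s hs
        by_cases k : s ∈ A₀
        · exact Or.inr ⟨hs, Set.disjoint_left.mp hd k⟩
        · exact Or.inl ⟨hs, k⟩
      have := (Set.encard_le_encard hsub).trans ((Set.encard_union_le _ _).trans
        (add_le_add hcon.1 hcon.2))
      rw [← two_mul] at this
      exact absurd hlt (not_lt.mpr this)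
    have hnot : ∀ B : Set α, (σ : ℕ∞) < (S \ B).encard → ∀ M ⊆ S, M.encard ≤ (σ : ℕ∞) →
        ¬ (S \ M ⊆ B) := by
      intro B hB M hM hMc hcon
      have : S \ B ⊆ M := by
        rintro s ⟨hs, hsB⟩
        by_contra hsM
        exact hsB (hcon ⟨hs, hsM⟩)
      exact absurd hB (not_lt.mpr ((Set.encard_le_encard this).trans hMc))
    rcases hcase with h | h
    · obtain ⟨x, hx⟩ : A₁.Nonempty := Set.one_le_encard_iff_nonempty.mp (hσ'.trans hc1)
      have : x ∈ core (duo X A₀ A₁) σ S := by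
        intro M hM hMc
        rw [mem_hull_duo hd (sdiff_subset.trans hS) (hbig M hM hMc)]
        exact ⟨h1 hx, fun hh => absurd hh (hnot A₀ h M hM hMc), fun _ => hx⟩
      rw [hc] at this
      exact this
    · obtain ⟨x, hx⟩ : A₀.Nonempty := Set.one_le_encard_iff_nonempty.mp (hσ'.trans hc0)
      have : x ∈ core (duo X A₀ A₁) σ S := by
        intro M hM hMc
        rw [mem_hull_duo hd (sdiff_subset.trans hS) (hbig M hM hMc)]
        exact ⟨h0 hx, fun _ => hx, fun hh => absurd hh (hnot A₁ h M hM hMc)⟩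
      rw [hc] at this
      exact this
  · obtain ⟨U₀, hU₀, hu₀⟩ := Set.exists_subset_encard_eq hc0
    obtain ⟨U₁, hU₁, hu₁⟩ := Set.exists_subset_encard_eq hc1
    have hdU : Disjoint U₀ U₁ := hd.mono hU₀ hU₁
    have hcard : (U₀ ∪ U₁).encard = 2 * (σ : ℕ∞) := by
      rw [Set.encard_union_eq hdU, hu₀, hu₁, two_mul]
    rw [← hcard]
    refine le_helly (Set.union_subset (hU₀.trans h0) (hU₁.trans h1)) ?_
    apply Set.eq_empty_of_forall_notMem
    intro x hx
    have ne : ∀ U : Set α, U.encard = (σ : ℕ∞) → U.Nonempty := by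
      intro U hU
      exact Set.one_le_encard_iff_nonempty.mp (by rw [hU]; exact hσ')
    have e0 := hx U₀ subset_union_left hu₀.le
    rw [Set.union_sdiff_left, hdU.symm.sdiff_eq_left,
      mem_hull_duo hd (hU₁.trans h1) (ne U₁ hu₁)] at e0
    have e1 := hx U₁ subset_union_right hu₁.le
    rw [Set.union_sdiff_right, hdU.sdiff_eq_left,
      mem_hull_duo hd (hU₀.trans h0) (ne U₀ hu₀)] at e1
    exact Set.disjoint_left.mp hd (e1.2.1 hU₀) (e0.2.2 hU₁)

theorem duo_kill {X A₀ A₁ : Set α} (hd : Disjoint A₀ A₁) {K : Set α} (hK : K ⊆ X) {x : α}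
    (hxX : x ∈ X) (hx : x ∉ hull (duo X A₀ A₁) K) : (K ⊆ A₀ ∧ x ∉ A₀) ∨ (K ⊆ A₁ ∧ x ∉ A₁) ∨
      K = ∅ := by
  rcases K.eq_empty_or_nonempty with h | h
  · exact Or.inr (Or.inr h)
  · rw [mem_hull_duo hd hK h] at hx
    by_contra hcon
    push Not at hcon
    exact hx ⟨hxX, hcon.1, hcon.2.1⟩

theorem exists_low (σ : ℕ) (hσ : 1 ≤ σ) :
    ∃ v ∈ SumValues σ (2 * (σ : ℕ∞)) (2 * (σ : ℕ∞)), v ≤ ((σ + (σ + 3) / 2 : ℕ) : ℕ∞) := by
  let Z : ℕ → Set (ℕ × ℕ) := fun i => {x | x.1 = i}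
  have hZt : ∀ i, (Z i).encard = ⊤ := by
    intro i
    have : Z i = row i ⊤ := by
      ext x
      simp [Z, row]
    rw [this, encard_row]
  let d : ℕ × ℕ := (4, 0)
  let p : ℕ × ℕ := (5, 0)
  let q : ℕ × ℕ := (6, 0)
  let A₀ : Set (ℕ × ℕ) := {x | x.1 = 0 ∨ x = d}
  let A₁ : Set (ℕ × ℕ) := {x | x.1 = 1 ∨ x = p}
  let B₀ : Set (ℕ × ℕ) := {x | x.1 = 2 ∨ x = d}
  let B₁ : Set (ℕ × ℕ) := {x | x.1 = 3 ∨ x = q}
  let X₁ : Set (ℕ × ℕ) := {x | x.1 < 4 ∨ x = d ∨ x = p}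
  let X₂ : Set (ℕ × ℕ) := {x | x.1 < 4 ∨ x = d ∨ x = q}
  have hdA : Disjoint A₀ A₁ := by
    rw [Set.disjoint_left]
    rintro x (h | h) (h' | h')
    · omega
    · rw [h'] at h; simp [p] at h
    · rw [h] at h'; simp [d] at h'
    · rw [h] at h'; simp [d, p] at h'
  have hdB : Disjoint B₀ B₁ := by
    rw [Set.disjoint_left]
    rintro x (h | h) (h' | h')
    · omega
    · rw [h'] at h; simp [q] at h
    · rw [h] at h'; simp [d] at h'
    · rw [h] at h'; simp [d, q] at h'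
  have sA₀ : A₀ ⊆ X₁ := by
    rintro x (h | h)
    · exact Or.inl (by omega)
    · exact Or.inr (Or.inl h)
  have sA₁ : A₁ ⊆ X₁ := by
    rintro x (h | h)
    · exact Or.inl (by omega)
    · exact Or.inr (Or.inr h)
  have sB₀ : B₀ ⊆ X₂ := by
    rintro x (h | h)
    · exact Or.inl (by omega)
    · exact Or.inr (Or.inl h)
  have sB₁ : B₁ ⊆ X₂ := by
    rintro x (h | h)
    · exact Or.inl (by omega)
    · exact Or.inr (Or.inr h)
  have big : ∀ (i : ℕ) (U : Set (ℕ × ℕ)), (Z i ⊆ U) → (σ : ℕ∞) ≤ U.encard := by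
    intro i U hU
    have := Set.encard_le_encard hU
    rw [hZt] at this
    exact le_top.trans this
  have cA₀ : (σ : ℕ∞) ≤ A₀.encard := big 0 _ (fun x hx => Or.inl hx)
  have cA₁ : (σ : ℕ∞) ≤ A₁.encard := big 1 _ (fun x hx => Or.inl hx)
  have cB₀ : (σ : ℕ∞) ≤ B₀.encard := big 2 _ (fun x hx => Or.inl hx)
  have cB₁ : (σ : ℕ∞) ≤ B₁.encard := big 3 _ (fun x hx => Or.inl hx)
  refine ⟨_, ⟨ℕ × ℕ, X₁, X₂, duo X₁ A₀ A₁, duo X₂ B₀ B₁, isAligned_duo _ _ _,
    isAligned_duo _ _ _, helly_duo hdA sA₀ sA₁ hσ cA₀ cA₁, helly_duo hdB sB₀ sB₁ hσ cB₀ cB₁,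
    rfl⟩, ?_⟩
  refine sInf_le ⟨σ + (σ + 3) / 2, rfl, ?_⟩
  intro S' hS' hcard'
  set k := (σ + 3) / 2 + 1 with hk
  have hcard'' : ((σ + k : ℕ) : ℕ∞) ≤ S'.encard := by
    refine le_trans (le_of_eq ?_) hcard'
    rw [hk]
    push_cast
    rw [add_assoc]
  obtain ⟨S, hSS', hScard⟩ := Set.exists_subset_encard_eq hcard''
  by_contra hne
  rw [Set.not_nonempty_iff_eq_empty] at hne
  have hS : S ⊆ X₁ ∪ X₂ := hSS'.trans hS'
  have hcore : core (alignedSum X₁ X₂ (duo X₁ A₀ A₁) (duo X₂ B₀ B₁)) σ S = ∅ := by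
    apply Set.eq_empty_of_subset_empty
    rw [← hne]
    exact core_mono _ σ hSS'
  have kill : ∀ x, ∃ M ⊆ S, (k : ℕ∞) ≤ (S \ M).encard ∧
      x ∉ hull (alignedSum X₁ X₂ (duo X₁ A₀ A₁) (duo X₂ B₀ B₁)) (S \ M) := by
    intro x
    have hx : x ∉ core (alignedSum X₁ X₂ (duo X₁ A₀ A₁) (duo X₂ B₀ B₁)) σ S := by
      rw [hcore]; exact Set.notMem_empty _
    simp only [core, Set.mem_ofPred_eq, not_forall] at hx
    obtain ⟨M, hM, hMc, hxM⟩ := hx
    refine ⟨M, hM, ?_, hxM⟩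
    have h1 := Set.encard_sdiff_add_encard_of_subset hM
    rw [hScard] at h1
    have h2 : ((σ + k : ℕ) : ℕ∞) ≤ (S \ M).encard + (σ : ℕ∞) := by
      rw [← h1]
      exact add_le_add le_rfl hMc
    push_cast at h2
    rw [add_comm] at h2
    exact (ENat.add_le_add_iff_right (by simp)).mp h2
  have hqX : ∀ x ∈ S, x ∉ X₁ → x = q := by
    intro x hx hx1
    rcases hS hx with h | h
    · exact absurd h hx1
    · rcases h with h | h | h
      · exact absurd (Or.inl h) hx1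
      · exact absurd (Or.inr (Or.inl h)) hx1
      · exact h
  have hpX : ∀ x ∈ S, x ∉ X₂ → x = p := by
    intro x hx hx2
    rcases hS hx with h | h
    · rcases h with h | h | h
      · exact absurd (Or.inl h) hx2
      · exact absurd (Or.inr (Or.inl h)) hx2
      · exact h
    · exact absurd h hx2
  have hp1 : p ∈ X₁ := Or.inr (Or.inr rfl)
  have hp2 : p ∉ X₂ := by
    rintro (h | h | h)
    · simp [p] at h
    · simp [p, d] at h
    · simp [p, q] at h
  have hq2 : q ∈ X₂ := Or.inr (Or.inr rfl)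
  have hq1 : q ∉ X₁ := by
    rintro (h | h | h)
    · simp [q] at h
    · simp [q, d] at h
    · simp [p, q] at h
  have hd1 : d ∈ X₁ := Or.inr (Or.inl rfl)
  have hd2 : d ∈ X₂ := Or.inr (Or.inl rfl)
  have hpA₁ : p ∈ A₁ := Or.inr rfl
  have hqB₁ : q ∈ B₁ := Or.inr rfl
  have hdA₀ : d ∈ A₀ := Or.inr rfl
  have hdB₀ : d ∈ B₀ := Or.inr rfl
  -- sets hit by `S`
  have up1 : ∀ M, ∀ U : Set (ℕ × ℕ), (k : ℕ∞) ≤ (S \ M).encard → (S \ M) ∩ X₁ ⊆ U →
      (k : ℕ∞) ≤ (S ∩ (U ∪ {q})).encard := by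
    intro M U hc hsub
    refine hc.trans (Set.encard_le_encard ?_)
    rintro x ⟨hx, hxM⟩
    by_cases hx1 : x ∈ X₁
    · exact ⟨hx, Or.inl (hsub ⟨⟨hx, hxM⟩, hx1⟩)⟩
    · exact ⟨hx, Or.inr (hqX x hx hx1)⟩
  have up2 : ∀ M, ∀ U : Set (ℕ × ℕ), (k : ℕ∞) ≤ (S \ M).encard → (S \ M) ∩ X₂ ⊆ U →
      (k : ℕ∞) ≤ (S ∩ (U ∪ {p})).encard := by
    intro M U hc hsub
    refine hc.trans (Set.encard_le_encard ?_)
    rintro x ⟨hx, hxM⟩
    by_cases hx1 : x ∈ X₂
    · exact ⟨hx, Or.inl (hsub ⟨⟨hx, hxM⟩, hx1⟩)⟩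
    · exact ⟨hx, Or.inr (hpX x hx hx1)⟩
  have t1 : (k : ℕ∞) ≤ (S ∩ (A₀ ∪ {q})).encard := by
    obtain ⟨M, hM, hc, hx⟩ := kill p
    rw [mem_hull_sum (isAligned_duo _ _ _) (isAligned_duo _ _ _) (sdiff_subset.trans hS)] at hx
    have hx' : p ∉ hull (duo X₁ A₀ A₁) ((S \ M) ∩ X₁) :=
      fun h => hx ⟨Or.inl hp1, fun _ => h, fun h2 => absurd h2 hp2⟩
    rcases duo_kill hdA inter_subset_right hp1 hx' with h | h | h
    · exact up1 M A₀ hc h.1
    · exact absurd hpA₁ h.2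
    · exact up1 M A₀ hc (by rw [h]; exact empty_subset _)
  have t2 : (k : ℕ∞) ≤ (S ∩ (B₀ ∪ {p})).encard := by
    obtain ⟨M, hM, hc, hx⟩ := kill q
    rw [mem_hull_sum (isAligned_duo _ _ _) (isAligned_duo _ _ _) (sdiff_subset.trans hS)] at hx
    have hx' : q ∉ hull (duo X₂ B₀ B₁) ((S \ M) ∩ X₂) :=
      fun h => hx ⟨Or.inr hq2, fun h2 => absurd h2 hq1, fun _ => h⟩
    rcases duo_kill hdB inter_subset_right hq2 hx' with h | h | h
    · exact up2 M B₀ hc h.1
    · exact absurd hqB₁ h.2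
    · exact up2 M B₀ hc (by rw [h]; exact empty_subset _)
  have t3 : (k : ℕ∞) ≤ (S ∩ (A₁ ∪ {q})).encard ∨ (k : ℕ∞) ≤ (S ∩ (B₁ ∪ {p})).encard := by
    obtain ⟨M, hM, hc, hx⟩ := kill d
    rw [mem_hull_sum (isAligned_duo _ _ _) (isAligned_duo _ _ _) (sdiff_subset.trans hS)] at hx
    by_cases hx' : d ∈ hull (duo X₁ A₀ A₁) ((S \ M) ∩ X₁)
    · right
      have hx2 : d ∉ hull (duo X₂ B₀ B₁) ((S \ M) ∩ X₂) :=
        fun h => hx ⟨Or.inl hd1, fun _ => hx', fun _ => h⟩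
      rcases duo_kill hdB inter_subset_right hd2 hx2 with h | h | h
      · exact absurd hdB₀ h.2
      · exact up2 M B₁ hc h.1
      · exact up2 M B₁ hc (by rw [h]; exact empty_subset _)
    · left
      rcases duo_kill hdA inter_subset_right hd1 hx' with h | h | h
      · exact absurd hdA₀ h.2
      · exact up1 M A₁ hc h.1
      · exact up1 M A₁ hc (by rw [h]; exact empty_subset _)
  -- counting
  have count : ∀ T₁ T₂ T₃ : Set (ℕ × ℕ), T₁ ⊆ S → T₂ ⊆ S → T₃ ⊆ S →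
      (T₁ ∩ T₂).encard ≤ 1 → ((T₁ ∪ T₂) ∩ T₃).encard ≤ 2 → (k : ℕ∞) ≤ T₁.encard →
      (k : ℕ∞) ≤ T₂.encard → (k : ℕ∞) ≤ T₃.encard → False := by
    intro T₁ T₂ T₃ s1 s2 s3 c1 c2 k1 k2 k3
    have e1 := Set.encard_union_add_encard_inter T₁ T₂
    have e2 := Set.encard_union_add_encard_inter (T₁ ∪ T₂) T₃
    have e3 : ((T₁ ∪ T₂) ∪ T₃).encard ≤ S.encard :=
      Set.encard_le_encard (Set.union_subset (Set.union_subset s1 s2) s3)
    have : (k : ℕ∞) + k + k ≤ ((σ + k : ℕ) : ℕ∞) + 2 + 1 := by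
      calc (k : ℕ∞) + k + k ≤ T₁.encard + T₂.encard + T₃.encard :=
            add_le_add (add_le_add k1 k2) k3
        _ = (T₁ ∪ T₂).encard + (T₁ ∩ T₂).encard + T₃.encard := by rw [e1]
        _ ≤ (T₁ ∪ T₂).encard + 1 + T₃.encard := add_le_add (add_le_add le_rfl c1) le_rfl
        _ = ((T₁ ∪ T₂).encard + T₃.encard) + 1 := by ring
        _ = (((T₁ ∪ T₂) ∪ T₃).encard + ((T₁ ∪ T₂) ∩ T₃).encard) + 1 := by rw [e2]
        _ ≤ (S.encard + 2) + 1 := add_le_add (add_le_add e3 c2) le_rfl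
        _ = _ := by rw [hScard]
    have h2 : ((k + k + k : ℕ) : ℕ∞) ≤ ((σ + k + 2 + 1 : ℕ) : ℕ∞) := by
      push_cast
      push_cast at this
      exact this
    have h3 := Nat.cast_le.mp h2
    omega
  have one_le : ∀ (T : Set (ℕ × ℕ)) (x : ℕ × ℕ), T ⊆ {x} → T.encard ≤ 1 := by
    intro T x h
    have := Set.encard_le_encard h
    rwa [Set.encard_singleton] at this
  have two_le : ∀ (T : Set (ℕ × ℕ)) (x y : ℕ × ℕ), T ⊆ {x, y} → T.encard ≤ 2 := by
    intro T x y h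
    refine (Set.encard_le_encard h).trans ((Set.encard_insert_le _ _).trans ?_)
    rw [Set.encard_singleton]
    norm_num
  have nd : d.1 = 4 := rfl
  have np : p.1 = 5 := rfl
  have nq : q.1 = 6 := rfl
  have i12 : ((S ∩ (A₀ ∪ {q})) ∩ (S ∩ (B₀ ∪ {p}))).encard ≤ 1 := by
    refine one_le _ d ?_
    rintro x ⟨⟨_, h⟩, ⟨_, h'⟩⟩
    rcases h with (h | h) | h
    · rcases h' with (h' | h') | h'
      · omega
      · exact h'
      · rw [Set.mem_singleton_iff] at h'; subst h'; omega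
    · exact h
    · rw [Set.mem_singleton_iff] at h
      subst h
      rcases h' with (h' | h') | h'
      · omega
      · exact h'
      · rw [Set.mem_singleton_iff] at h'
        have : q.1 = p.1 := by rw [h']
        omega
  rcases t3 with t3 | t3
  · refine count _ _ _ inter_subset_left inter_subset_left inter_subset_left i12 ?_ t1 t2 t3
    refine two_le _ p q ?_
    rintro x ⟨h, ⟨_, h'⟩⟩
    rcases h' with (h' | h') | h'
    · exfalso
      rcases h with ⟨_, (h | h) | h⟩ | ⟨_, (h | h) | h⟩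
      · omega
      · rw [h] at h'; omega
      · rw [Set.mem_singleton_iff] at h; rw [h] at h'; omega
      · omega
      · rw [h] at h'; omega
      · rw [Set.mem_singleton_iff] at h; rw [h] at h'; omega
    · exact Or.inl h'
    · exact Or.inr h'
  · refine count _ _ _ inter_subset_left inter_subset_left inter_subset_left i12 ?_ t1 t2 t3
    refine two_le _ p q ?_
    rintro x ⟨h, ⟨_, h'⟩⟩
    rcases h' with (h' | h') | h'
    · exfalso
      rcases h with ⟨_, (h | h) | h⟩ | ⟨_, (h | h) | h⟩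
      · omega
      · rw [h] at h'; omega
      · rw [Set.mem_singleton_iff] at h; rw [h] at h'; omega
      · omega
      · rw [h] at h'; omega
      · rw [Set.mem_singleton_iff] at h; rw [h] at h'; omega
    · exact Or.inr h'
    · exact Or.inl h'

/-! ### Optimality of the constant -/

/-- The alignment on `X` generated by the sets `A i`. -/
def gen (X : Set α) {ι : Type} (A : ι → Set α) : Set (Set α) :=
  {B | B = ∅ ∨ ∃ I : Set ι, B = {x | x ∈ X ∧ ∀ i ∈ I, x ∈ A i}}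

theorem isAligned_gen (X : Set α) {ι : Type} [Finite ι] (A : ι → Set α) :
    IsAligned X (gen X A) where
  sub := by
    rintro B (rfl | ⟨I, rfl⟩)
    · exact empty_subset _
    · exact fun x hx => hx.1
  empty_mem := Or.inl rfl
  univ_mem := Or.inr ⟨∅, by ext x; simp⟩
  sInter_mem := by
    rintro F hF ⟨B₀, hB₀⟩
    by_cases he : (∅ : Set α) ∈ F
    · left
      exact Set.eq_empty_of_subset_empty (sInter_subset_of_mem he)
    · right
      refine ⟨{i | ∃ J : Set ι, {x | x ∈ X ∧ ∀ j ∈ J, x ∈ A j} ∈ F ∧ i ∈ J}, ?_⟩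
      have hform : ∀ B ∈ F, ∃ J : Set ι, B = {x | x ∈ X ∧ ∀ j ∈ J, x ∈ A j} := by
        intro B hB
        rcases hF hB with rfl | h
        · exact absurd hB he
        · exact h
      ext x
      constructor
      · intro hx
        refine ⟨?_, ?_⟩
        · obtain ⟨J, hJ⟩ := hform B₀ hB₀
          have := hx B₀ hB₀
          rw [hJ] at this
          exact this.1
        · rintro i ⟨J, hJ, hi⟩
          exact (hx _ hJ).2 i hi
      · rintro ⟨hx, hx2⟩ B hB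
        obtain ⟨J, hJ⟩ := hform B hB
        rw [hJ]
        rw [hJ] at hB
        exact ⟨hx, fun j hj => hx2 j ⟨J, hB, hj⟩⟩
  chain_mem := by
    rintro F hF hne hch
    have hfin : (gen X A).Finite := by
      have : gen X A ⊆ {∅} ∪ Set.range (fun I : Set ι => {x | x ∈ X ∧ ∀ i ∈ I, x ∈ A i}) := by
        rintro B (rfl | ⟨I, rfl⟩)
        · exact Or.inl rfl
        · exact Or.inr ⟨I, rfl⟩
      exact ((Set.finite_singleton _).union (Set.finite_range _)).subset this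
    obtain ⟨M, hM⟩ := (hfin.subset hF).exists_maximal hne
    have : ⋃₀ F = M := by
      apply Set.Subset.antisymm
      · refine sUnion_subset (fun B hB => ?_)
        rcases hch.total hB hM.prop with h | h
        · exact h
        · exact hM.le_of_ge hB h
      · exact fun x hx => ⟨M, hM.prop, hx⟩
    rw [this]
    exact hF hM.prop

theorem gen_kill {X : Set α} {ι : Type} {A : ι → Set α} {K : Set α} {z : α} (hz : z ∈ X)
    (hzK : z ∉ hull (gen X A) K) : K = ∅ ∨ ∃ i, K ⊆ A i ∧ z ∉ A i := by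
  by_contra hcon
  push Not at hcon
  obtain ⟨hne, h2⟩ := hcon
  apply hzK
  rintro B ⟨(rfl | ⟨I, rfl⟩), hKB⟩
  · exact absurd (Set.eq_empty_of_subset_empty hKB) (Set.nonempty_iff_ne_empty.mp hne)
  · exact ⟨hz, fun i hi => h2 i (fun x hx => (hKB hx).2 i hi)⟩

theorem side_lower {σ m k : ℕ} (hm : m * (k - m) + 1 ≤ σ) (hmk : m ≤ k) {X : Set α}
    (e : (ℕ × ℕ) ⊕ ℕ → α) (he : Function.Injective e) (A : Fin (m + 1) → Set α)
    (hA : ∀ i : Fin (m + 1), A i = {x | (∃ n, x = e (Sum.inl (i.val, n))) ∨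
      ∃ j, j ≤ m ∧ j ≠ i.val ∧ x = e (Sum.inr j)}) (hX : ∀ i, A i ⊆ X) (hm1 : 1 ≤ m) :
    ((σ + k : ℕ) : ℕ∞) ≤ helly X (gen X A) σ := by
  classical
  set r := σ - 1 - m * (k - m) with hr
  let T : Finset ((ℕ × ℕ) ⊕ ℕ) := Finset.disjSum
    ((Finset.range (m + 1) ×ˢ Finset.range (k - m)) ∪
      (({0} : Finset ℕ) ×ˢ Finset.Ico (k - m) (k - m + r))) (Finset.range (m + 1))
  have hTc : T.card = σ + k := by
    rw [Finset.card_disjSum, Finset.card_union_of_disjoint, Finset.card_product,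
      Finset.card_product]
    · simp only [Finset.card_range, Finset.card_singleton, Nat.card_Ico]
      have : (m + 1) * (k - m) = m * (k - m) + (k - m) := by ring
      rw [this]
      omega
    · rw [Finset.disjoint_left]
      rintro ⟨a, b⟩ h1 h2
      rw [Finset.mem_product, Finset.mem_range] at h1
      rw [Finset.mem_product, Finset.mem_Ico] at h2
      have := h1.2
      rw [Finset.mem_range] at this
      have := h2.2.1
      simp only at *
      omega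
  let S : Finset α := T.image e
  have hSc : S.card = σ + k := by rw [Finset.card_image_of_injective _ he, hTc]
  have hSX : (S : Set α) ⊆ X := by
    intro x hx
    rw [Finset.mem_coe, Finset.mem_image] at hx
    obtain ⟨y, hy, rfl⟩ := hx
    rcases y with ⟨i, n⟩ | j
    · have hi : i < m + 1 := by
        rw [Finset.inl_mem_disjSum, Finset.mem_union, Finset.mem_product, Finset.mem_product] at hy
        rcases hy with hy | hy
        · exact Finset.mem_range.mp hy.1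
        · have := Finset.mem_singleton.mp hy.1
          simp only at this
          omega
      apply hX ⟨i, hi⟩
      rw [hA]
      exact Or.inl ⟨n, rfl⟩
    · have hj : j < m + 1 := by
        rw [Finset.inr_mem_disjSum] at hy
        exact Finset.mem_range.mp hy
      by_cases h0 : j = 0
      · apply hX ⟨1, by omega⟩
        rw [hA]
        exact Or.inr ⟨j, by omega, by simp only; omega, rfl⟩
      · apply hX ⟨0, by omega⟩
        rw [hA]
        exact Or.inr ⟨j, by omega, by simp only; omega, rfl⟩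
  have hcard : (S : Set α).encard = ((σ + k : ℕ) : ℕ∞) := by
    rw [Set.encard_coe_eq_coe_finsetCard, hSc]
  rw [← hcard]
  refine le_helly hSX ?_
  refine core_empty_of_family (X := X) (F := Finset.univ.image A) ?_ ?_ ?_
  · intro G hG
    obtain ⟨i, -, rfl⟩ := Finset.mem_image.mp hG
    right
    refine ⟨{i}, ?_⟩
    ext x
    constructor
    · intro hx
      exact ⟨hX i hx, fun j hj => by rw [Set.mem_singleton_iff.mp hj]; exact hx⟩
    · intro hx
      exact hx.2 i rfl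
  · intro x
    by_contra hcon
    push Not at hcon
    have h0 := hcon (A ⟨0, by omega⟩) (Finset.mem_image_of_mem _ (Finset.mem_univ _))
    have h1 := hcon (A ⟨1, by omega⟩) (Finset.mem_image_of_mem _ (Finset.mem_univ _))
    have hall : ∀ i : Fin (m + 1), x ∈ A i :=
      fun i => hcon (A i) (Finset.mem_image_of_mem _ (Finset.mem_univ _))
    rw [hA] at h0
    rcases h0 with ⟨n, rfl⟩ | ⟨j, hj, -, rfl⟩
    · rw [hA] at h1
      rcases h1 with ⟨n', h⟩ | ⟨j, -, -, h⟩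
      · have := he h
        simp at this
      · have := he h
        simp at this
    · have hj' := hall ⟨j, by omega⟩
      rw [hA] at hj'
      rcases hj' with ⟨n', h⟩ | ⟨j', -, hne, h⟩
      · have := he h
        simp at this
      · have := he h
        simp only [Sum.inr.injEq] at this
        exact hne this.symm
  · intro G hG
    obtain ⟨i, -, rfl⟩ := Finset.mem_image.mp hG
    -- `k` points of `S` in `A i`
    let T' : Finset ((ℕ × ℕ) ⊕ ℕ) := Finset.disjSum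
      (({i.val} : Finset ℕ) ×ˢ Finset.range (k - m)) ((Finset.range (m + 1)).erase i.val)
    have hT'c : T'.card = k := by
      rw [Finset.card_disjSum, Finset.card_product,
        Finset.card_erase_of_mem (Finset.mem_range.mpr i.isLt)]
      simp only [Finset.card_range, Finset.card_singleton]
      omega
    have hT'T : T' ⊆ T := by
      apply Finset.disjSum_mono
      · intro y hy
        apply Finset.mem_union_left
        rw [Finset.mem_product] at hy ⊢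
        refine ⟨?_, hy.2⟩
        rw [Finset.mem_singleton.mp hy.1]
        exact Finset.mem_range.mpr i.isLt
      · exact Finset.erase_subset _ _
    have hT'A : ((T'.image e : Finset α) : Set α) ⊆ A i := by
      intro x hx
      rw [Finset.mem_coe, Finset.mem_image] at hx
      obtain ⟨y, hy, rfl⟩ := hx
      rw [hA]
      rcases y with ⟨i', n⟩ | j
      · rw [Finset.inl_mem_disjSum, Finset.mem_product] at hy
        have := Finset.mem_singleton.mp hy.1
        simp only at this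
        left
        exact ⟨n, by rw [this]⟩
      · rw [Finset.inr_mem_disjSum, Finset.mem_erase, Finset.mem_range] at hy
        right
        exact ⟨j, by omega, hy.1, rfl⟩
    have hsub : (S : Set α) \ A i ⊆ ((S \ T'.image e : Finset α) : Set α) := by
      intro x hx
      rw [Finset.coe_sdiff]
      exact ⟨hx.1, fun h => hx.2 (hT'A h)⟩
    refine (Set.encard_le_encard hsub).trans ?_
    rw [Set.encard_coe_eq_coe_finsetCard,
      Finset.card_sdiff_of_subset (Finset.image_subset_image hT'T), hSc,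
      Finset.card_image_of_injective _ he, hT'c]
    exact Nat.cast_le.mpr (by omega)

def eA : (ℕ × ℕ) ⊕ ℕ → ℕ × ℕ × ℕ
  | Sum.inl y => (0, y.1, y.2)
  | Sum.inr j => (2, j, 0)

def eB : (ℕ × ℕ) ⊕ ℕ → ℕ × ℕ × ℕ
  | Sum.inl y => (1, y.1, y.2)
  | Sum.inr j => (if j = 0 then 3 else 2, j, 0)

theorem eA_inj : Function.Injective eA := by
  rintro (⟨a, b⟩ | j) (⟨c, d⟩ | j') h
  · simp only [eA, Prod.mk.injEq] at h
    rw [h.2.1, h.2.2]
  · simp [eA] at h
  · simp [eA] at h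
  · simp only [eA, Prod.mk.injEq] at h
    rw [h.2.1]

theorem eB_inj : Function.Injective eB := by
  rintro (⟨a, b⟩ | j) (⟨c, d⟩ | j') h
  · simp only [eB, Prod.mk.injEq] at h
    rw [h.2.1, h.2.2]
  · simp only [eB, Prod.mk.injEq] at h
    split_ifs at h <;> omega
  · simp only [eB, Prod.mk.injEq] at h
    split_ifs at h <;> omega
  · simp only [eB, Prod.mk.injEq] at h
    rw [h.2.1]

def fam (e : (ℕ × ℕ) ⊕ ℕ → ℕ × ℕ × ℕ) (m i : ℕ) : Set (ℕ × ℕ × ℕ) :=
  {x | (∃ n, x = e (Sum.inl (i, n))) ∨ ∃ j, j ≤ m ∧ j ≠ i ∧ x = e (Sum.inr j)}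

theorem mem_famA {m i : ℕ} {x : ℕ × ℕ × ℕ} (h : x ∈ fam eA m i) :
    (x.1 = 0 ∧ x.2.1 = i) ∨ (x.1 = 2 ∧ x.2.1 ≤ m ∧ x.2.1 ≠ i ∧ x.2.2 = 0) := by
  rcases h with ⟨n, rfl⟩ | ⟨j, hj, hne, rfl⟩
  · left; exact ⟨rfl, rfl⟩
  · right; exact ⟨rfl, hj, hne, rfl⟩

theorem mem_famB {m i : ℕ} {x : ℕ × ℕ × ℕ} (h : x ∈ fam eB m i) :
    (x.1 = 1 ∧ x.2.1 = i) ∨ (x.1 = 2 ∧ x.2.1 ≤ m ∧ x.2.1 ≠ i ∧ x.2.1 ≠ 0 ∧ x.2.2 = 0) ∨
      (x = (3, 0, 0) ∧ i ≠ 0) := by
  rcases h with ⟨n, rfl⟩ | ⟨j, hj, hne, rfl⟩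
  · left; exact ⟨rfl, rfl⟩
  · right
    by_cases h0 : j = 0
    · right
      subst h0
      exact ⟨rfl, Ne.symm hne⟩
    · left
      refine ⟨?_, hj, hne, h0, rfl⟩
      simp only [eB]
      rw [if_neg h0]

theorem choose_m {σ k : ℕ} (hk : 4 * σ ≤ k * k) (hkσ : k ≤ σ) (hσ : 1 ≤ σ) :
    ∃ m, 1 ≤ m ∧ m ≤ k ∧ m * (k - m) + 1 ≤ σ ∧ m + 1 ≤ k ∧ σ ≤ (m + 1) * (k - (m + 1)) := by
  classical
  have hex : ∃ M, σ ≤ M * (k - M) := by
    refine ⟨k / 2, ?_⟩
    rcases Nat.even_or_odd' k with ⟨c, rfl | rfl⟩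
    · have e1 : 2 * c / 2 = c := by omega
      have e2 : 2 * c - c = c := by omega
      rw [e1, e2]
      nlinarith
    · have e1 : (2 * c + 1) / 2 = c := by omega
      have e2 : 2 * c + 1 - c = c + 1 := by omega
      rw [e1, e2]
      have e3 : (2 * c + 1) * (2 * c + 1) = 4 * (c * (c + 1)) + 1 := by ring
      omega
  have hM := Nat.find_spec hex
  have hmin := fun n (h : n < Nat.find hex) => Nat.find_min hex h
  generalize Nat.find hex = M at hM hmin
  have hM0 : M ≠ 0 := by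
    intro h
    rw [h, Nat.zero_mul] at hM
    omega
  have hM1 : M ≠ 1 := by
    intro h
    rw [h, Nat.one_mul] at hM
    omega
  have hMk : M ≤ k := by
    by_contra hlt
    have : k - M = 0 := by omega
    rw [this, Nat.mul_zero] at hM
    omega
  obtain ⟨m, rfl⟩ : ∃ m, M = m + 1 := ⟨M - 1, by omega⟩
  refine ⟨m, by omega, by omega, ?_, hMk, hM⟩
  have := hmin m (by omega)
  omega

theorem count_bound {β : Type} (S : Set β) (N k m : ℕ) (hS : S.encard = (N : ℕ∞))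
    (T : ℕ → Set β) (P : Finset β) (hP : P.card ≤ m + 2)
    (hT : ∀ t, t < m + 2 → (k : ℕ∞) ≤ (S ∩ T t).encard)
    (h1 : ∀ x, x ∉ P → ∀ t, t < m + 2 → ∀ t', t' < m + 2 → x ∈ T t → x ∈ T t' → t = t')
    (h2 : ∀ x ∈ P, ∃ t, t < m + 2 ∧ x ∉ T t) :
    (m + 2) * k ≤ N + m * (m + 2) := by
  classical
  have hfin : S.Finite := Set.finite_of_encard_eq_coe hS
  obtain ⟨s, rfl⟩ := hfin.exists_finset_coe
  have hs : s.card = N := by
    rw [Set.encard_coe_eq_coe_finsetCard] at hS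
    exact_mod_cast hS
  have hT' : ∀ t ∈ Finset.range (m + 2), k ≤ (s.filter (fun x => x ∈ T t)).card := by
    intro t ht
    have := hT t (Finset.mem_range.mp ht)
    have e : (s : Set β) ∩ T t = ((s.filter (fun x => x ∈ T t) : Finset β) : Set β) := by
      ext x
      simp
    rw [e, Set.encard_coe_eq_coe_finsetCard] at this
    exact_mod_cast this
  have hdc : ∑ t ∈ Finset.range (m + 2), (s.filter (fun x => x ∈ T t)).card =
      ∑ x ∈ s, ((Finset.range (m + 2)).filter (fun t => x ∈ T t)).card := by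
    simp only [Finset.card_filter]
    exact Finset.sum_comm
  have hup : ∀ x ∈ s, ((Finset.range (m + 2)).filter (fun t => x ∈ T t)).card ≤
      1 + (if x ∈ P then m else 0) := by
    intro x hx
    split_ifs with hxP
    · obtain ⟨t, ht, hxt⟩ := h2 x hxP
      have h3 : (Finset.range (m + 2)).filter (fun t => x ∈ T t) ⊆
          (Finset.range (m + 2)).erase t := by
        intro t' ht'
        rw [Finset.mem_filter] at ht'
        rw [Finset.mem_erase]
        exact ⟨fun h => hxt (h ▸ ht'.2), ht'.1⟩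
      have h4 := Finset.card_le_card h3
      rw [Finset.card_erase_of_mem (Finset.mem_range.mpr ht), Finset.card_range] at h4
      omega
    · rw [Nat.add_zero, Finset.card_le_one]
      intro t ht t' ht'
      rw [Finset.mem_filter, Finset.mem_range] at ht ht'
      exact h1 x hxP t ht.1 t' ht'.1 ht.2 ht'.2
  have hsum1 : (m + 2) * k ≤
      ∑ t ∈ Finset.range (m + 2), (s.filter (fun x => x ∈ T t)).card := by
    have := Finset.card_nsmul_le_sum (Finset.range (m + 2)) _ k hT'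
    rwa [Finset.card_range, smul_eq_mul] at this
  have hsum2 : ∑ x ∈ s, (1 + (if x ∈ P then m else 0)) ≤ N + m * (m + 2) := by
    rw [Finset.sum_add_distrib, Finset.sum_const, smul_eq_mul, mul_one, hs,
      ← Finset.sum_filter, Finset.sum_const, smul_eq_mul]
    have : (s.filter (fun x => x ∈ P)).card ≤ m + 2 :=
      (Finset.card_le_card (fun x hx => (Finset.mem_filter.mp hx).2)).trans hP
    nlinarith
  exact hsum1.trans (hdc.le.trans ((Finset.sum_le_sum hup).trans hsum2))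

theorem exists_below {σ k : ℕ} (hk : 4 * σ ≤ k * k) (hkσ : k ≤ σ) (hσ : 1 ≤ σ) :
    ∃ a b h : ℕ∞, ((σ + k : ℕ) : ℕ∞) ≤ min a b ∧ h ∈ SumValues σ a b ∧
      h < ((σ + k : ℕ) : ℕ∞) := by
  classical
  obtain ⟨m, hm1, hmk, hm2, hm3, hm4⟩ := choose_m hk hkσ hσ
  let p : ℕ × ℕ × ℕ := (2, 0, 0)
  let q : ℕ × ℕ × ℕ := (3, 0, 0)
  let X₁ : Set (ℕ × ℕ × ℕ) := {x | x ≠ q}
  let X₂ : Set (ℕ × ℕ × ℕ) := {x | x ≠ p}
  have sA : ∀ i, fam eA m i ⊆ X₁ := by
    intro i x hx hxq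
    rcases mem_famA hx with h | h
    · rw [hxq] at h
      have : (3 : ℕ) = 0 := h.1
      omega
    · rw [hxq] at h
      have : (3 : ℕ) = 2 := h.1
      omega
  have sB : ∀ i, fam eB m i ⊆ X₂ := by
    intro i x hx hxp
    rcases mem_famB hx with h | h | h
    · rw [hxp] at h
      have : (2 : ℕ) = 1 := h.1
      omega
    · rw [hxp] at h
      exact h.2.2.2.1 rfl
    · rw [hxp] at h
      have : (2 : ℕ) = 3 := congrArg Prod.fst h.1
      omega
  let A : Fin (m + 1) → Set (ℕ × ℕ × ℕ) := fun i => fam eA m i.val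
  let B : Fin (m + 1) → Set (ℕ × ℕ × ℕ) := fun i => fam eB m i.val
  have hA : ((σ + k : ℕ) : ℕ∞) ≤ helly X₁ (gen X₁ A) σ :=
    side_lower hm2 hmk eA eA_inj A (fun i => rfl) (fun i => sA _) hm1
  have hB : ((σ + k : ℕ) : ℕ∞) ≤ helly X₂ (gen X₂ B) σ :=
    side_lower hm2 hmk eB eB_inj B (fun i => rfl) (fun i => sB _) hm1
  refine ⟨_, _, _, le_min hA hB, ⟨ℕ × ℕ × ℕ, X₁, X₂, gen X₁ A, gen X₂ B, isAligned_gen _ _,
    isAligned_gen _ _, rfl, rfl, rfl⟩, ?_⟩
  by_contra hcon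
  rw [not_lt] at hcon
  have hlt : ((σ + k - 1 : ℕ) : ℕ∞) <
      helly (X₁ ∪ X₂) (alignedSum X₁ X₂ (gen X₁ A) (gen X₂ B)) σ :=
    lt_of_lt_of_le (Nat.cast_lt.mpr (by omega)) hcon
  obtain ⟨S', hS', hcard', hne⟩ := exists_of_lt_helly hlt
  have hcard'' : ((σ + k : ℕ) : ℕ∞) ≤ S'.encard := by
    refine le_trans (le_of_eq ?_) hcard'
    have h3 : σ + k = (σ + k - 1) + 1 := by omega
    have h4 : ((σ + k : ℕ) : ℕ∞) = (((σ + k - 1) + 1 : ℕ) : ℕ∞) := congrArg _ h3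
    rw [h4]
    exact Nat.cast_add_one _
  obtain ⟨S, hSS', hScard⟩ := Set.exists_subset_encard_eq hcard''
  have hS : S ⊆ X₁ ∪ X₂ := hSS'.trans hS'
  have hcore : core (alignedSum X₁ X₂ (gen X₁ A) (gen X₂ B)) σ S = ∅ := by
    apply Set.eq_empty_of_subset_empty
    rw [← hne]
    exact core_mono _ σ hSS'
  have kill : ∀ x, ∃ M ⊆ S, (k : ℕ∞) ≤ (S \ M).encard ∧
      x ∉ hull (alignedSum X₁ X₂ (gen X₁ A) (gen X₂ B)) (S \ M) := by
    intro x
    have hx : x ∉ core (alignedSum X₁ X₂ (gen X₁ A) (gen X₂ B)) σ S := by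
      rw [hcore]; exact Set.notMem_empty _
    simp only [core, Set.mem_ofPred_eq, not_forall] at hx
    obtain ⟨M, hM, hMc, hxM⟩ := hx
    refine ⟨M, hM, ?_, hxM⟩
    have h1 := Set.encard_sdiff_add_encard_of_subset hM
    rw [hScard] at h1
    have h2 : ((σ + k : ℕ) : ℕ∞) ≤ (S \ M).encard + (σ : ℕ∞) := by
      rw [← h1]
      exact add_le_add le_rfl hMc
    push_cast at h2
    rw [add_comm] at h2
    exact (ENat.add_le_add_iff_right (by simp)).mp h2
  -- sets hit by `S`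
  have up1 : ∀ M, ∀ U : Set (ℕ × ℕ × ℕ), (k : ℕ∞) ≤ (S \ M).encard → (S \ M) ∩ X₁ ⊆ U →
      (k : ℕ∞) ≤ (S ∩ (U ∪ {q})).encard := by
    intro M U hc hsub
    refine hc.trans (Set.encard_le_encard ?_)
    rintro x ⟨hx, hxM⟩
    by_cases hx1 : x = q
    · exact ⟨hx, Or.inr hx1⟩
    · exact ⟨hx, Or.inl (hsub ⟨⟨hx, hxM⟩, hx1⟩)⟩
  have up2 : ∀ M, ∀ U : Set (ℕ × ℕ × ℕ), (k : ℕ∞) ≤ (S \ M).encard → (S \ M) ∩ X₂ ⊆ U →
      (k : ℕ∞) ≤ (S ∩ (U ∪ {p})).encard := by
    intro M U hc hsub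
    refine hc.trans (Set.encard_le_encard ?_)
    rintro x ⟨hx, hxM⟩
    by_cases hx1 : x = p
    · exact ⟨hx, Or.inr hx1⟩
    · exact ⟨hx, Or.inl (hsub ⟨⟨hx, hxM⟩, hx1⟩)⟩
  have hkA : ∀ j, j ≤ m → ∀ M, (k : ℕ∞) ≤ (S \ M).encard → eA (Sum.inr j) ∈ X₁ →
      eA (Sum.inr j) ∉ hull (gen X₁ A) ((S \ M) ∩ X₁) →
      (k : ℕ∞) ≤ (S ∩ (fam eA m j ∪ {q})).encard := by
    intro j hj M hc hjX hx
    rcases gen_kill hjX hx with h | ⟨i, hi, hji⟩
    · exact up1 M _ hc (by rw [h]; exact empty_subset _)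
    · have hij : j = i.val := by
        by_contra hne'
        exact hji (Or.inr ⟨j, hj, hne', rfl⟩)
      rw [hij]
      exact up1 M _ hc hi
  have hkB : ∀ j, j ≤ m → ∀ M, (k : ℕ∞) ≤ (S \ M).encard → eB (Sum.inr j) ∈ X₂ →
      eB (Sum.inr j) ∉ hull (gen X₂ B) ((S \ M) ∩ X₂) →
      (k : ℕ∞) ≤ (S ∩ (fam eB m j ∪ {p})).encard := by
    intro j hj M hc hjX hx
    rcases gen_kill hjX hx with h | ⟨i, hi, hji⟩
    · exact up2 M _ hc (by rw [h]; exact empty_subset _)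
    · have hij : j = i.val := by
        by_contra hne'
        exact hji (Or.inr ⟨j, hj, hne', rfl⟩)
      rw [hij]
      exact up2 M _ hc hi
  have hp1 : p ∈ X₁ := by
    intro h
    have : (2 : ℕ) = 3 := congrArg Prod.fst h
    omega
  have hp2 : p ∉ X₂ := fun h => h rfl
  have hq2 : q ∈ X₂ := by
    intro h
    have : (3 : ℕ) = 2 := congrArg Prod.fst h
    omega
  have hq1 : q ∉ X₁ := fun h => h rfl
  have t1 : (k : ℕ∞) ≤ (S ∩ (fam eA m 0 ∪ {q})).encard := by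
    obtain ⟨M, hM, hc, hx⟩ := kill p
    rw [mem_hull_sum (isAligned_gen _ _) (isAligned_gen _ _) (sdiff_subset.trans hS)] at hx
    exact hkA 0 (Nat.zero_le _) M hc hp1
      (fun h => hx ⟨Or.inl hp1, fun _ => h, fun h2 => absurd h2 hp2⟩)
  have t2 : (k : ℕ∞) ≤ (S ∩ (fam eB m 0 ∪ {p})).encard := by
    obtain ⟨M, hM, hc, hx⟩ := kill q
    rw [mem_hull_sum (isAligned_gen _ _) (isAligned_gen _ _) (sdiff_subset.trans hS)] at hx
    exact hkB 0 (Nat.zero_le _) M hc hq2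
      (fun h => hx ⟨Or.inr hq2, fun h2 => absurd h2 hq1, fun _ => h⟩)
  have t3 : ∀ j, 1 ≤ j → j ≤ m → (k : ℕ∞) ≤ (S ∩ (fam eA m j ∪ {q})).encard ∨
      (k : ℕ∞) ≤ (S ∩ (fam eB m j ∪ {p})).encard := by
    intro j hj1 hjm
    have hz1 : ((2, j, 0) : ℕ × ℕ × ℕ) ∈ X₁ := by
      intro h
      have : (2 : ℕ) = 3 := congrArg Prod.fst h
      omega
    have hz2 : ((2, j, 0) : ℕ × ℕ × ℕ) ∈ X₂ := by
      intro h
      have : j = 0 := congrArg (fun x => x.2.1) h
      omega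
    have heB : eB (Sum.inr j) = (2, j, 0) := by
      simp only [eB]
      rw [if_neg (by omega)]
    obtain ⟨M, hM, hc, hx⟩ := kill (2, j, 0)
    rw [mem_hull_sum (isAligned_gen _ _) (isAligned_gen _ _) (sdiff_subset.trans hS)] at hx
    by_cases h1 : ((2, j, 0) : ℕ × ℕ × ℕ) ∈ hull (gen X₁ A) ((S \ M) ∩ X₁)
    · right
      have h2 : ((2, j, 0) : ℕ × ℕ × ℕ) ∉ hull (gen X₂ B) ((S \ M) ∩ X₂) :=
        fun h => hx ⟨Or.inl hz1, fun _ => h1, fun _ => h⟩
      rw [← heB] at h2 hz2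
      exact hkB j hjm M hc hz2 h2
    · left
      exact hkA j hjm M hc hz1 h1
  -- the counting
  let T : ℕ → Set (ℕ × ℕ × ℕ) := fun t => if t = m + 1 then fam eB m 0 ∪ {p} else
    if (k : ℕ∞) ≤ (S ∩ (fam eA m t ∪ {q})).encard then fam eA m t ∪ {q} else fam eB m t ∪ {p}
  let P : Finset (ℕ × ℕ × ℕ) :=
    (Finset.range (m + 1)).image (fun j => ((2, j, 0) : ℕ × ℕ × ℕ)) ∪ {q}
  have hPc : P.card ≤ m + 2 := by
    refine (Finset.card_union_le _ _).trans ?_
    rw [Finset.card_singleton]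
    have := Finset.card_image_le (s := Finset.range (m + 1))
      (f := fun j => ((2, j, 0) : ℕ × ℕ × ℕ))
    rw [Finset.card_range] at this
    omega
  have hPd : ∀ j, j ≤ m → ((2, j, 0) : ℕ × ℕ × ℕ) ∈ P := by
    intro j hj
    exact Finset.mem_union_left _ (Finset.mem_image.mpr ⟨j, Finset.mem_range.mpr (by omega), rfl⟩)
  have hPq : q ∈ P := Finset.mem_union_right _ (Finset.mem_singleton_self _)
  have hchar : ∀ x, x ∉ P → ∀ t, t < m + 2 → x ∈ T t →
      (x.1 = 0 ∧ x.2.1 = t ∧ t ≤ m) ∨ (x.1 = 1 ∧ x.2.1 = t ∧ t ≠ 0 ∧ t ≤ m) ∨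
        (x.1 = 1 ∧ x.2.1 = 0 ∧ t = m + 1) := by
    intro x hxP t ht hxt
    have hform : ∀ i, i ≤ m → x ∈ fam eB m i ∪ {p} → x.1 = 1 ∧ x.2.1 = i := by
      intro i him hxi
      rcases hxi with hxi | hxi
      · rcases mem_famB hxi with h | h | h
        · exact h
        · exfalso
          apply hxP
          have : x = (2, x.2.1, 0) := by
            rw [← h.1, ← h.2.2.2.2]
          rw [this]
          exact hPd _ h.2.1
        · exfalso
          apply hxP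
          rw [h.1]
          exact hPq
      · exact absurd (hPd 0 (Nat.zero_le _)) (by rw [Set.mem_singleton_iff] at hxi; rw [hxi] at hxP; exact hxP)
    by_cases htm : t = m + 1
    · have hx2 : x ∈ fam eB m 0 ∪ {p} := by
        simp only [T] at hxt
        rwa [if_pos htm] at hxt
      have := hform 0 (Nat.zero_le _) hx2
      exact Or.inr (Or.inr ⟨this.1, this.2, htm⟩)
    · simp only [T] at hxt
      rw [if_neg htm] at hxt
      by_cases hc : (k : ℕ∞) ≤ (S ∩ (fam eA m t ∪ {q})).encard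
      · rw [if_pos hc] at hxt
        rcases hxt with hxt | hxt
        · rcases mem_famA hxt with h | h
          · exact Or.inl ⟨h.1, h.2, by omega⟩
          · exfalso
            apply hxP
            have : x = (2, x.2.1, 0) := by
              rw [← h.1, ← h.2.2.2]
            rw [this]
            exact hPd _ h.2.1
        · exact absurd hPq (by rw [Set.mem_singleton_iff] at hxt; rw [hxt] at hxP; exact hxP)
      · rw [if_neg hc] at hxt
        have ht0 : t ≠ 0 := by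
          rintro rfl
          exact hc t1
        have := hform t (by omega) hxt
        exact Or.inr (Or.inl ⟨this.1, this.2, ht0, by omega⟩)
  have hfin := count_bound S (σ + k) k m hScard T P hPc ?_ ?_ ?_
  · obtain ⟨r, rfl⟩ : ∃ r, k = m + 1 + r := ⟨k - (m + 1), by omega⟩
    have e1 : m + 1 + r - (m + 1) = r := by omega
    rw [e1] at hm4
    have e2 : (m + 2) * (m + 1 + r) = (m + 1) * r + r + (m * (m + 2)) + m + 2 := by ring
    omega
  · intro t ht
    by_cases htm : t = m + 1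
    · have : T t = fam eB m 0 ∪ {p} := by
        simp only [T]
        rw [if_pos htm]
      rw [this]
      exact t2
    · by_cases hc : (k : ℕ∞) ≤ (S ∩ (fam eA m t ∪ {q})).encard
      · have : T t = fam eA m t ∪ {q} := by
          simp only [T]
          rw [if_neg htm, if_pos hc]
        rw [this]
        exact hc
      · have : T t = fam eB m t ∪ {p} := by
          simp only [T]
          rw [if_neg htm, if_neg hc]
        rw [this]
        have ht0 : t ≠ 0 := by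
          rintro rfl
          exact hc t1
        exact (t3 t (by omega) (by omega)).resolve_left hc
  · intro x hxP t ht t' ht' hxt hxt'
    have h1 := hchar x hxP t ht hxt
    have h2 := hchar x hxP t' ht' hxt'
    omega
  · intro x hxP
    rw [Finset.mem_union] at hxP
    rcases hxP with hxP | hxP
    · obtain ⟨j, hj, rfl⟩ := Finset.mem_image.mp hxP
      rw [Finset.mem_range] at hj
      refine ⟨j, by omega, ?_⟩
      have nA : ((2, j, 0) : ℕ × ℕ × ℕ) ∉ fam eA m j ∪ {q} := by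
        rintro (h | h)
        · rcases mem_famA h with h | h
          · have : (2 : ℕ) = 0 := h.1
            omega
          · exact h.2.2.1 rfl
        · have : (2 : ℕ) = 3 := congrArg Prod.fst h
          omega
      simp only [T]
      rw [if_neg (by omega)]
      by_cases hc : (k : ℕ∞) ≤ (S ∩ (fam eA m j ∪ {q})).encard
      · rw [if_pos hc]
        exact nA
      · rw [if_neg hc]
        have hj0 : j ≠ 0 := by
          rintro rfl
          exact hc t1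
        rintro (h | h)
        · rcases mem_famB h with h | h | h
          · have : (2 : ℕ) = 1 := h.1
            omega
          · exact h.2.2.1 rfl
          · have : (2 : ℕ) = 3 := congrArg Prod.fst h.1
            omega
        · have : j = 0 := congrArg (fun x => x.2.1) h
          omega
    · rw [Finset.mem_singleton] at hxP
      subst hxP
      refine ⟨m + 1, by omega, ?_⟩
      have hTm : T (m + 1) = fam eB m 0 ∪ {p} := if_pos rfl
      rw [hTm]
      rintro (h | h)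
      · rcases mem_famB h with h | h | h
        · have : (3 : ℕ) = 1 := h.1
          omega
        · have : (3 : ℕ) = 2 := h.1
          omega
        · exact h.2 rfl
      · have : (3 : ℕ) = 2 := congrArg Prod.fst h
        omega

/-! ### Large values of `a` and `b` -/

theorem lower_large {X₁ X₂ : Set α} {C₁ C₂ : Set (Set α)} (h₁ : IsAligned X₁ C₁)
    (h₂ : IsAligned X₂ C₂) {σ : ℕ} (hσ : 1 ≤ σ)
    (ha : ((σ * σ + 1 : ℕ) : ℕ∞) ≤ helly X₁ C₁ σ) (hb : ((σ * σ + 1 : ℕ) : ℕ∞) ≤ helly X₂ C₂ σ) :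
    ((2 * σ : ℕ) : ℕ∞) ≤ helly (X₁ ∪ X₂) (alignedSum X₁ X₂ C₁ C₂) σ := by
  classical
  have hpos : 1 ≤ σ * σ + 1 := by omega
  have getS : ∀ (X : Set α) (C : Set (Set α)), ((σ * σ + 1 : ℕ) : ℕ∞) ≤ helly X C σ →
      ∃ s : Finset α, (s : Set α) ⊆ X ∧ s.card = σ * σ + 1 ∧ core C σ (s : Set α) = ∅ := by
    intro X C h
    have hn : ((σ * σ + 1 : ℕ) : ℕ∞) = ((σ * σ + 1 - 1 : ℕ) : ℕ∞) + 1 := by
      have : σ * σ + 1 = σ * σ + 1 - 1 + 1 := by omega
      exact_mod_cast this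
    obtain ⟨S, hS, hSc, hc⟩ := exists_eq_of_le_helly (n := σ * σ + 1 - 1) (by rw [← hn]; exact h)
    rw [← hn] at hSc
    obtain ⟨s, rfl⟩ := (Set.finite_of_encard_eq_coe hSc).exists_finset_coe
    rw [Set.encard_coe_eq_coe_finsetCard] at hSc
    exact ⟨s, hS, by exact_mod_cast hSc, hc⟩
  obtain ⟨s₁, hs₁, hs₁c, hc₁⟩ := getS X₁ C₁ ha
  obtain ⟨s₂, hs₂, hs₂c, hc₂⟩ := getS X₂ C₂ hb
  have leftover : ∀ (s : Finset α) (C : Set (Set α)), core C σ (s : Set α) = ∅ →
      ∀ x, ∃ K ⊆ s, (s \ K).card ≤ σ ∧ x ∉ hull C (K : Set α) := by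
    intro s C hc x
    have hx : x ∉ core C σ (s : Set α) := by rw [hc]; exact Set.notMem_empty _
    simp only [core, Set.mem_ofPred_eq, not_forall] at hx
    obtain ⟨M, hM, hMc, hxM⟩ := hx
    obtain ⟨m, rfl⟩ := (s.finite_toSet.subset hM).exists_finset_coe
    refine ⟨s \ m, Finset.sdiff_subset, ?_, by rw [Finset.coe_sdiff]; exact hxM⟩
    have h3 : s \ (s \ m) ⊆ m := by
      intro y hy
      rw [Finset.mem_sdiff, Finset.mem_sdiff] at hy
      by_contra hym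
      exact hy.2 ⟨hy.1, hym⟩
    refine (Finset.card_le_card h3).trans ?_
    rw [Set.encard_coe_eq_coe_finsetCard] at hMc
    exact_mod_cast hMc
  have hmem : ∀ K ⊆ X₁ ∪ X₂, hull (alignedSum X₁ X₂ C₁ C₂) K ∈ alignedSum X₁ X₂ C₁ C₂ := by
    intro K hK
    refine ⟨_, hull_mem h₁ (S := K ∩ X₁) inter_subset_right, _,
      hull_mem h₂ (S := K ∩ X₂) inter_subset_right, ?_⟩
    ext x
    rw [mem_hull_sum h₁ h₂ hK]
    have i1 := h₁.sub _ (hull_mem h₁ (S := K ∩ X₁) inter_subset_right)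
    have i2 := h₂.sub _ (hull_mem h₂ (S := K ∩ X₂) inter_subset_right)
    simp only [Set.mem_union, Set.mem_sdiff, Set.mem_inter_iff]
    constructor
    · rintro ⟨hx, a1, a2⟩
      by_cases k1 : x ∈ X₁ <;> by_cases k2 : x ∈ X₂ <;> tauto
    · rintro ((⟨a, b⟩ | ⟨a, b⟩) | ⟨a, b⟩)
      · exact ⟨Or.inl (i1 a), fun _ => a, fun h => absurd h b⟩
      · exact ⟨Or.inr (i2 a), fun h => absurd h b, fun _ => a⟩
      · exact ⟨Or.inl (i1 a), fun _ => a, fun _ => b⟩
  let Q : Finset α → Prop := fun K =>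
    (K ⊆ s₁ ∧ (s₁ \ K).card ≤ σ) ∨ (K ⊆ s₂ ∧ (s₂ \ K).card ≤ σ)
  have hQsub : ∀ K, Q K → (K : Set α) ⊆ X₁ ∪ X₂ := by
    rintro K (⟨h, -⟩ | ⟨h, -⟩)
    · exact (Finset.coe_subset.mpr h).trans (hs₁.trans subset_union_left)
    · exact (Finset.coe_subset.mpr h).trans (hs₂.trans subset_union_right)
  have hex : ∃ n, ∃ U : Finset (Finset α), U.card = n ∧ (∀ K ∈ U, Q K) ∧
      ∀ x, ∃ K ∈ U, x ∉ hull (alignedSum X₁ X₂ C₁ C₂) (K : Set α) := by
    refine ⟨_, (s₁.powerset ∪ s₂.powerset).filter Q, rfl,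
      fun K hK => (Finset.mem_filter.mp hK).2, ?_⟩
    intro x
    by_cases hx1 : x ∈ X₁
    · obtain ⟨K, hK, hKc, hxK⟩ := leftover s₁ C₁ hc₁ x
      refine ⟨K, Finset.mem_filter.mpr
        ⟨Finset.mem_union_left _ (Finset.mem_powerset.mpr hK), Or.inl ⟨hK, hKc⟩⟩, ?_⟩
      intro h
      rw [mem_hull_sum h₁ h₂ (hQsub K (Or.inl ⟨hK, hKc⟩))] at h
      exact hxK (hull_mono C₁ inter_subset_left (h.2.1 hx1))
    · obtain ⟨K, hK, hKc, hxK⟩ := leftover s₂ C₂ hc₂ x
      refine ⟨K, Finset.mem_filter.mpr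
        ⟨Finset.mem_union_right _ (Finset.mem_powerset.mpr hK), Or.inr ⟨hK, hKc⟩⟩, ?_⟩
      intro h
      rw [mem_hull_sum h₁ h₂ (hQsub K (Or.inr ⟨hK, hKc⟩))] at h
      rcases h.1 with h3 | h3
      · exact hx1 h3
      · exact hxK (hull_mono C₂ inter_subset_left (h.2.2 h3))
  obtain ⟨U, hUc, hUQ, hUe⟩ := Nat.find_spec hex
  have hmin := fun n (h : n < Nat.find hex) => Nat.find_min hex h
  rw [← hUc] at hmin
  have hy : ∀ K ∈ U, ∃ y, ∀ K' ∈ U, K' ≠ K →
      y ∈ hull (alignedSum X₁ X₂ C₁ C₂) (K' : Set α) := by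
    intro K hK
    have hK1 := Finset.card_pos.mpr ⟨K, hK⟩
    have h3 := hmin (U.card - 1) (by omega)
    by_contra hcon
    push Not at hcon
    refine h3 ⟨U.erase K, Finset.card_erase_of_mem hK,
      fun K' hK' => hUQ K' (Finset.mem_of_mem_erase hK'), fun x => ?_⟩
    obtain ⟨K', h4, h5, h6⟩ := hcon x
    exact ⟨K', Finset.mem_erase.mpr ⟨h5, h4⟩, h6⟩
  rcases Nat.lt_or_ge U.card (σ + 1) with hlt | hge
  · have hk : ∀ s : Finset α, ∀ K ∈ U, (K ⊆ s ∧ (s \ K).card ≤ σ) →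
        (s \ ((U.filter (fun K => K ⊆ s ∧ (s \ K).card ≤ σ)).biUnion (fun K => s \ K))) ⊆ K := by
      intro s K hK hKs x hx
      rw [Finset.mem_sdiff, Finset.mem_biUnion] at hx
      by_contra hxK
      exact hx.2 ⟨K, Finset.mem_filter.mpr ⟨hK, hKs⟩, Finset.mem_sdiff.mpr ⟨hx.1, hxK⟩⟩
    have hbig : ∀ s : Finset α, s.card = σ * σ + 1 → σ ≤
        (s \ ((U.filter (fun K => K ⊆ s ∧ (s \ K).card ≤ σ)).biUnion (fun K => s \ K))).card := by
      intro s hs
      have e1 : ((U.filter (fun K => K ⊆ s ∧ (s \ K).card ≤ σ)).biUnion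
          (fun K => s \ K)).card ≤ (U.filter (fun K => K ⊆ s ∧ (s \ K).card ≤ σ)).card * σ :=
        Finset.card_biUnion_le_card_mul _ _ σ (fun K hK => (Finset.mem_filter.mp hK).2.2)
      have e2 := Finset.le_card_sdiff
        ((U.filter (fun K => K ⊆ s ∧ (s \ K).card ≤ σ)).biUnion (fun K => s \ K)) s
      have e4 : (U.filter (fun K => K ⊆ s ∧ (s \ K).card ≤ σ)).card ≤ σ :=
        (Finset.card_filter_le _ _).trans (by omega)
      have e5 : (U.filter (fun K => K ⊆ s ∧ (s \ K).card ≤ σ)).card ≠ σ := by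
        intro heq
        have e6 : U.filter (fun K => K ⊆ s ∧ (s \ K).card ≤ σ) = U :=
          Finset.eq_of_subset_of_card_le (Finset.filter_subset _ _) (by omega)
        have e7 : 0 < (s \ ((U.filter (fun K => K ⊆ s ∧ (s \ K).card ≤ σ)).biUnion
            (fun K => s \ K))).card := by
          rw [heq] at e1
          omega
        obtain ⟨x, hx⟩ := Finset.card_pos.mp e7
        obtain ⟨K, hK, hxK⟩ := hUe x
        have hK2 : K ∈ U.filter (fun K => K ⊆ s ∧ (s \ K).card ≤ σ) := by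
          rw [e6]
          exact hK
        exact hxK (subset_hull _ _
          (Finset.mem_coe.mpr (hk s K hK (Finset.mem_filter.mp hK2).2 hx)))
      have e8 : (U.filter (fun K => K ⊆ s ∧ (s \ K).card ≤ σ)).card * σ ≤ (σ - 1) * σ :=
        Nat.mul_le_mul_right _ (by omega)
      have e3 : (σ - 1) * σ + σ = σ * σ := by
        obtain ⟨r, hr⟩ : ∃ r, σ = r + 1 := ⟨σ - 1, by omega⟩
        rw [hr, Nat.add_sub_cancel]
        ring
      omega
    have hb₁ := hbig s₁ hs₁c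
    have hb₂ := hbig s₂ hs₂c
    have hkk₁ := hk s₁
    have hkk₂ := hk s₂
    have hks₁ : (s₁ \ ((U.filter (fun K => K ⊆ s₁ ∧ (s₁ \ K).card ≤ σ)).biUnion
      (fun K => s₁ \ K))) ⊆ s₁ := Finset.sdiff_subset
    have hks₂ : (s₂ \ ((U.filter (fun K => K ⊆ s₂ ∧ (s₂ \ K).card ≤ σ)).biUnion
      (fun K => s₂ \ K))) ⊆ s₂ := Finset.sdiff_subset
    generalize (s₁ \ ((U.filter (fun K => K ⊆ s₁ ∧ (s₁ \ K).card ≤ σ)).biUnion
      (fun K => s₁ \ K))) = k₁ at hb₁ hkk₁ hks₁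
    generalize (s₂ \ ((U.filter (fun K => K ⊆ s₂ ∧ (s₂ \ K).card ≤ σ)).biUnion
      (fun K => s₂ \ K))) = k₂ at hb₂ hkk₂ hks₂
    have hempty : ∀ x, x ∉ hull (alignedSum X₁ X₂ C₁ C₂) (k₁ : Set α) ∨
        x ∉ hull (alignedSum X₁ X₂ C₁ C₂) (k₂ : Set α) := by
      intro x
      obtain ⟨K, hK, hxK⟩ := hUe x
      rcases hUQ K hK with h | h
      · left
        exact fun h' => hxK (hull_mono _ (Finset.coe_subset.mpr (hkk₁ K hK h)) h')
      · right
        exact fun h' => hxK (hull_mono _ (Finset.coe_subset.mpr (hkk₂ K hK h)) h')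
    obtain ⟨t₁, ht₁, ht₁c⟩ := Finset.exists_subset_card_eq hb₁
    obtain ⟨t₂, ht₂, ht₂c⟩ := Finset.exists_subset_card_eq hb₂
    have hdis : Disjoint t₁ t₂ := by
      rw [Finset.disjoint_left]
      intro x h1 h2
      rcases hempty x with h | h
      · exact h (subset_hull _ _ (Finset.mem_coe.mpr (ht₁ h1)))
      · exact h (subset_hull _ _ (Finset.mem_coe.mpr (ht₂ h2)))
    have hcard : ((t₁ ∪ t₂ : Finset α) : Set α).encard = ((2 * σ : ℕ) : ℕ∞) := by
      rw [Set.encard_coe_eq_coe_finsetCard, Finset.card_union_of_disjoint hdis, ht₁c, ht₂c,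
        two_mul]
    have kX₁ : (k₁ : Set α) ⊆ X₁ ∪ X₂ :=
      (Finset.coe_subset.mpr hks₁).trans (hs₁.trans subset_union_left)
    have kX₂ : (k₂ : Set α) ⊆ X₁ ∪ X₂ :=
      (Finset.coe_subset.mpr hks₂).trans (hs₂.trans subset_union_right)
    rw [← hcard]
    refine le_helly ?_ ?_
    · rw [Finset.coe_union]
      exact Set.union_subset ((Finset.coe_subset.mpr ht₁).trans kX₁)
        ((Finset.coe_subset.mpr ht₂).trans kX₂)
    · refine core_empty_of_family (X := X₁ ∪ X₂)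
        (F := {hull (alignedSum X₁ X₂ C₁ C₂) (k₁ : Set α),
          hull (alignedSum X₁ X₂ C₁ C₂) (k₂ : Set α)}) ?_ ?_ ?_
      · intro G hG
        rw [Finset.mem_insert, Finset.mem_singleton] at hG
        rcases hG with rfl | rfl
        · exact hmem _ kX₁
        · exact hmem _ kX₂
      · intro x
        rcases hempty x with h | h
        · exact ⟨_, Finset.mem_insert_self _ _, h⟩
        · exact ⟨_, Finset.mem_insert_of_mem (Finset.mem_singleton_self _), h⟩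
      · intro G hG
        rw [Finset.mem_insert, Finset.mem_singleton] at hG
        rcases hG with rfl | rfl
        · have h3 : ((t₁ ∪ t₂ : Finset α) : Set α) \
              hull (alignedSum X₁ X₂ C₁ C₂) (k₁ : Set α) ⊆ (t₂ : Set α) := by
            rintro x ⟨hx, hx2⟩
            rw [Finset.mem_coe, Finset.mem_union] at hx
            rcases hx with hx | hx
            · exact absurd (subset_hull _ _ (Finset.mem_coe.mpr (ht₁ hx))) hx2
            · exact hx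
          refine (Set.encard_le_encard h3).trans ?_
          rw [Set.encard_coe_eq_coe_finsetCard, ht₂c]
        · have h3 : ((t₁ ∪ t₂ : Finset α) : Set α) \
              hull (alignedSum X₁ X₂ C₁ C₂) (k₂ : Set α) ⊆ (t₁ : Set α) := by
            rintro x ⟨hx, hx2⟩
            rw [Finset.mem_coe, Finset.mem_union] at hx
            rcases hx with hx | hx
            · exact hx
            · exact absurd (subset_hull _ _ (Finset.mem_coe.mpr (ht₂ hx))) hx2
          refine (Set.encard_le_encard h3).trans ?_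
          rw [Set.encard_coe_eq_coe_finsetCard, ht₁c]
  · obtain ⟨x₀, -⟩ := Finset.card_pos.mp (by rw [hs₁c]; exact hpos : 0 < s₁.card)
    haveI : Nonempty α := ⟨x₀⟩
    choose! y hy using hy
    have hyn : ∀ K ∈ U, y K ∉ hull (alignedSum X₁ X₂ C₁ C₂) (K : Set α) := by
      intro K hK h
      obtain ⟨K', hK', h'⟩ := hUe (y K)
      by_cases hne : K' = K
      · rw [hne] at h'
        exact h' h
      · exact h' (hy K hK K' hK' hne)
    have hinj : Set.InjOn y (U : Set (Finset α)) := by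
      intro K hK K' hK' h
      by_contra hne
      have h3 := hy K' hK' K hK hne
      rw [← h] at h3
      exact hyn K hK h3
    have hcard : ((U.image y : Finset α) : Set α).encard = (U.card : ℕ∞) := by
      rw [Set.encard_coe_eq_coe_finsetCard, Finset.card_image_of_injOn hinj]
    have hyX : ((U.image y : Finset α) : Set α) ⊆ X₁ ∪ X₂ := by
      intro x hx
      rw [Finset.mem_coe, Finset.mem_image] at hx
      obtain ⟨K, hK, rfl⟩ := hx
      obtain ⟨K', hK', hne⟩ := Finset.exists_mem_ne (by omega : 1 < U.card) K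
      have h3 := hy K hK K' hK' hne
      rw [mem_hull_sum h₁ h₂ (hQsub K' (hUQ K' hK'))] at h3
      exact h3.1
    have hsq : 2 * σ ≤ σ * σ + 1 := by
      obtain ⟨r, hr⟩ : ∃ r, σ = r + 1 := ⟨σ - 1, by omega⟩
      rw [hr]
      nlinarith
    obtain ⟨u, hu1, hu2, hu3⟩ := Finset.exists_subsuperset_card_eq
      (s := U.image y) (t := U.image y ∪ s₁) (n := max U.card (2 * σ))
      Finset.subset_union_left
      (by rw [Finset.card_image_of_injOn hinj]; exact le_max_left _ _)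
      (by
        refine max_le ?_ ?_
        · rw [← Finset.card_image_of_injOn hinj]
          exact Finset.card_le_card Finset.subset_union_left
        · exact hsq.trans (by rw [← hs₁c]; exact Finset.card_le_card Finset.subset_union_right))
    have hu4 : ((2 * σ : ℕ) : ℕ∞) ≤ (u : Set α).encard := by
      rw [Set.encard_coe_eq_coe_finsetCard, hu3]
      exact Nat.cast_le.mpr (le_max_right _ _)
    refine hu4.trans ?_
    refine le_helly ?_ ?_
    · refine (Finset.coe_subset.mpr hu2).trans ?_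
      rw [Finset.coe_union]
      exact Set.union_subset hyX (hs₁.trans subset_union_left)
    · refine core_empty_of_family (X := X₁ ∪ X₂)
        (F := U.image (fun K : Finset α => hull (alignedSum X₁ X₂ C₁ C₂) (K : Set α))) ?_ ?_ ?_
      · intro G hG
        obtain ⟨K, hK, rfl⟩ := Finset.mem_image.mp hG
        exact hmem _ (hQsub K (hUQ K hK))
      · intro x
        obtain ⟨K, hK, h⟩ := hUe x
        exact ⟨_, Finset.mem_image_of_mem _ hK, h⟩
      · intro G hG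
        obtain ⟨K, hK, rfl⟩ := Finset.mem_image.mp hG
        have h3 : (u : Set α) \ hull (alignedSum X₁ X₂ C₁ C₂) (K : Set α) ⊆
            ((insert (y K) (u \ U.image y) : Finset α) : Set α) := by
          rintro x ⟨hx, hx2⟩
          rw [Finset.mem_coe, Finset.mem_insert, Finset.mem_sdiff]
          by_cases hxy : x ∈ U.image y
          · left
            obtain ⟨K', hK', rfl⟩ := Finset.mem_image.mp hxy
            by_cases hne : K = K'
            · rw [hne]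
            · exact absurd (hy K' hK' K hK hne) hx2
          · exact Or.inr ⟨hx, hxy⟩
        refine (Set.encard_le_encard h3).trans ?_
        rw [Set.encard_coe_eq_coe_finsetCard]
        refine Nat.cast_le.mpr ((Finset.card_insert_le _ _).trans ?_)
        rw [Finset.card_sdiff_of_subset hu1, hu3, Finset.card_image_of_injOn hinj]
        rcases le_total U.card (2 * σ) with hle | hle
        · rw [max_eq_right hle]
          omega
        · rw [max_eq_left hle]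
          omega

/-! ### The main theorem -/

theorem le_of_mem {σ : ℕ} {a b h : ℕ∞} (hmin : min a b < σ) (hh : h ∈ SumValues σ a b) :
    max a b ≤ h := by
  have key : ∀ a b : ℕ∞, a < σ → a ≤ b → h ∈ SumValues σ a b → max a b ≤ h := by
    rintro a b ha hab ⟨α, X₁, X₂, C₁, C₂, h₁, h₂, rfl, rfl, rfl⟩
    rw [max_eq_right hab]
    exact helly_two_le h₁ h₂ ha
  rcases le_total a b with hab | hab
  · rw [min_eq_left hab] at hmin
    exact key a b hmin hab hh
  · rw [min_eq_right hab] at hmin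
    rw [max_comm]
    exact key b a hmin hab (by rwa [sumValues_comm])

theorem le_add_of_mem {σ : ℕ} (hσ : 1 ≤ σ) {a b h : ℕ∞} (hh : h ∈ SumValues σ a b)
    (hc : a = 0 ∨ b = 0 ∨ (a < σ ∧ b < σ)) : h ≤ a + b := by
  have key : ∀ b : ℕ∞, h ∈ SumValues σ 0 b → h ≤ b := by
    rintro b ⟨α, X₁, X₂, C₁, C₂, h₁, h₂, ha, rfl, rfl⟩
    have hX := encard_of_helly_lt h₁ (σ := σ) (by rw [ha]; exact_mod_cast hσ)
    rw [ha, Set.encard_eq_zero] at hX
    exact helly_sum_le_of_empty h₁ h₂ hX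
  rcases hc with rfl | rfl | ⟨ha, hb⟩
  · rw [zero_add]
    exact key b hh
  · rw [add_zero]
    rw [sumValues_comm] at hh
    exact key a hh
  · obtain ⟨α, X₁, X₂, C₁, C₂, h₁, h₂, rfl, rfl, rfl⟩ := hh
    refine helly_le_encard.trans ((Set.encard_union_le _ _).trans ?_)
    rw [encard_of_helly_lt h₁ ha, encard_of_helly_lt h₂ hb]

theorem lower_of_mem {σ k : ℕ} (hk : k * k < 4 * σ) {a b h : ℕ∞}
    (hh : h ∈ SumValues σ a b) (ha : (σ : ℕ∞) ≤ min a b) :
    min (min a b) ((σ + k : ℕ) : ℕ∞) ≤ h := by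
  obtain ⟨α, X₁, X₂, C₁, C₂, h₁, h₂, rfl, rfl, rfl⟩ := hh
  -- reduce to the largest admissible integer
  have hbase : (σ : ℕ∞) ≤ helly (X₁ ∪ X₂) (alignedSum X₁ X₂ C₁ C₂) σ := by
    refine le_trans ?_ (min_le_helly (X := X₁ ∪ X₂) (hull_sum_empty h₁ h₂) σ)
    refine le_min ?_ le_rfl
    exact (ha.trans (min_le_left _ _)).trans
      (helly_le_encard.trans (Set.encard_le_encard subset_union_left))
  have step : ∀ j : ℕ, j ≤ k → ((σ + j : ℕ) : ℕ∞) ≤ min (helly X₁ C₁ σ) (helly X₂ C₂ σ) →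
      ((σ + j : ℕ) : ℕ∞) ≤ helly (X₁ ∪ X₂) (alignedSum X₁ X₂ C₁ C₂) σ := by
    intro j hj hle
    rcases Nat.eq_zero_or_pos j with h0 | h0
    · subst h0
      simpa using hbase
    · exact lower_helly_sum h₁ h₂ h0 (lt_of_le_of_lt (Nat.mul_le_mul hj hj) hk)
        (hle.trans (min_le_left _ _)) (hle.trans (min_le_right _ _))
  rcases le_total ((σ + k : ℕ) : ℕ∞) (min (helly X₁ C₁ σ) (helly X₂ C₂ σ)) with hle | hle
  · rw [min_eq_right hle]
    exact step k le_rfl hle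
  · rw [min_eq_left hle]
    obtain ⟨n, hn⟩ := ENat.ne_top_iff_exists.mp (ne_top_of_le_ne_top (by simp) hle)
    rw [← hn] at hle ha ⊢
    have e1 : n ≤ σ + k := Nat.cast_le.mp hle
    have e2 : σ ≤ n := Nat.cast_le.mp ha
    have e3 : σ + (n - σ) = n := by omega
    have := step (n - σ) (by omega) (by rw [e3, ← hn])
    rwa [e3] at this

theorem min_mem (σ : ℕ) (hσ : 1 ≤ σ) (a b : ℕ∞) (ha : (σ : ℕ∞) ≤ a) (hb : (σ : ℕ∞) ≤ b) :
    min (min a b) (2 * (σ : ℕ∞)) ∈ SumValues σ a b := by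
  rcases le_total (min a b) (2 * (σ : ℕ∞)) with h | h
  · rw [min_eq_left h]
    rcases le_total a b with hab | hab
    · rw [min_eq_left hab]
      exact left_mem σ hσ a b ha hb
    · rw [min_eq_right hab, sumValues_comm]
      exact left_mem σ hσ b a hb ha
  · rw [min_eq_right h]
    exact two_mul_mem σ hσ a b (h.trans (min_le_left _ _)) (h.trans (min_le_right _ _))

/-- Best possible bounds for the `σ`-Helly number of the aligned sum in terms of the
`σ`-Helly numbers `a`, `b` of the summands. -/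
theorem result (σ : ℕ) (hσ : 1 ≤ σ) :
    (∀ a b : ℕ∞, (a = 0 ∨ b = 0 ∨ (a < σ ∧ b < σ)) → IsGreatest (SumValues σ a b) (a + b)) ∧
    (∀ a b : ℕ∞, ¬ (a = 0 ∨ b = 0 ∨ (a < σ ∧ b < σ)) → IsGreatest (SumValues σ a b) ⊤) ∧
    (∀ a b : ℕ∞, min a b < σ → IsLeast (SumValues σ a b) (max a b)) ∧
    (∀ a b : ℕ∞, σ ≤ min a b → min (min a b) (2 * (σ : ℕ∞)) ∈ SumValues σ a b) ∧
    (∀ a b : ℕ∞, ((σ * σ + 1 : ℕ) : ℕ∞) ≤ min a b →
      IsLeast (SumValues σ a b) (2 * (σ : ℕ∞))) ∧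
    (∀ k : ℕ, (∀ a b : ℕ∞, σ ≤ min a b → ∀ h ∈ SumValues σ a b,
        min (min a b) ((σ + k : ℕ) : ℕ∞) ≤ h) ↔ k * k < 4 * σ) ∧
    ((∀ a b : ℕ∞, σ ≤ min a b →
      IsLeast (SumValues σ a b) (min (min a b) (2 * (σ : ℕ∞)))) ↔ σ ≤ 3) ∧
    (∃ h ∈ SumValues σ (2 * (σ : ℕ∞)) (2 * (σ : ℕ∞)), h ≤ ((σ + (σ + 3) / 2 : ℕ) : ℕ∞)) := by
  have low : ∀ a b : ℕ∞, σ ≤ min a b → min (min a b) (2 * (σ : ℕ∞)) ∈ SumValues σ a b ∧
      ∀ h ∈ SumValues σ a b, ∀ k : ℕ, k * k < 4 * σ →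
        min (min a b) ((σ + k : ℕ) : ℕ∞) ≤ h := by
    intro a b h
    exact ⟨min_mem σ hσ a b (h.trans (min_le_left _ _)) (h.trans (min_le_right _ _)),
      fun v hv k hk => lower_of_mem hk hv h⟩
  refine ⟨fun a b h => ⟨add_mem σ hσ a b, fun v hv => le_add_of_mem hσ hv h⟩,
    fun a b h => ⟨top_mem σ hσ a b h, fun v _ => le_top⟩,
    fun a b h => ⟨max_mem σ hσ a b, fun v hv => le_of_mem h hv⟩, fun a b h => (low a b h).1,
    ?_, fun k => ⟨?_, ?_⟩, ⟨?_, ?_⟩, exists_low σ hσ⟩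
  · intro a b h
    have h1 : ((2 * σ : ℕ) : ℕ∞) ≤ min a b :=
      (Nat.cast_le.mpr (by nlinarith [Nat.sub_add_cancel hσ, Nat.zero_le ((σ - 1) * (σ - 1))] :
        2 * σ ≤ σ * σ + 1)).trans h
    have h2 : ((2 * σ : ℕ) : ℕ∞) = 2 * (σ : ℕ∞) := by
      push_cast
      rfl
    have h3 : (σ : ℕ∞) ≤ min a b := (Nat.cast_le.mpr (by omega : σ ≤ 2 * σ)).trans h1
    rw [h2] at h1
    have h4 := (low a b h3).1
    rw [min_eq_right h1] at h4
    refine ⟨h4, ?_⟩
    rintro v ⟨α, X₁, X₂, C₁, C₂, g₁, g₂, rfl, rfl, rfl⟩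
    rw [← h2]
    exact lower_large g₁ g₂ hσ (h.trans (min_le_left _ _)) (h.trans (min_le_right _ _))
  · intro H
    by_contra hcon
    rw [not_lt] at hcon
    rcases le_or_gt k σ with hkσ | hkσ
    · obtain ⟨a, b, h, hab, hh, hlt⟩ := exists_below hcon hkσ hσ
      have h1 : (σ : ℕ∞) ≤ min a b :=
        (Nat.cast_le.mpr (Nat.le_add_right σ k)).trans hab
      have h2 := H a b h1 h hh
      rw [min_eq_right hab] at h2
      exact absurd hlt (not_lt.mpr h2)
    · have h1 : (σ : ℕ∞) ≤ min (⊤ : ℕ∞) ⊤ := by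
        rw [min_self]
        exact le_top
      have h2 := H ⊤ ⊤ h1 _ (low ⊤ ⊤ h1).1
      have h3 : ((σ + k : ℕ) : ℕ∞) ≤ ((2 * σ : ℕ) : ℕ∞) := by
        refine le_trans (le_of_eq ?_) (h2.trans (le_trans (min_le_right _ _) (le_of_eq ?_)))
        · rw [min_self, min_eq_right le_top]
        · push_cast
          rfl
      have h4 := Nat.cast_le.mp h3
      omega
  · intro hk a b h v hv
    exact (low a b h).2 v hv k hk
  · intro H
    by_contra hlt
    obtain ⟨v, hv, hle⟩ := exists_low σ hσ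
    have h1 : (σ : ℕ∞) ≤ min (2 * (σ : ℕ∞)) (2 * (σ : ℕ∞)) := by
      rw [min_self, two_mul]
      exact le_self_add
    have h2 := (H _ _ h1).2 hv
    rw [min_self, min_self] at h2
    have h3 : ((2 * σ : ℕ) : ℕ∞) ≤ ((σ + (σ + 3) / 2 : ℕ) : ℕ∞) := by
      refine le_trans (le_of_eq ?_) (h2.trans hle)
      push_cast
      rfl
    have h4 := Nat.cast_le.mp h3
    omega
  · intro h2 a b h
    refine ⟨(low a b h).1, fun v hv => le_trans ?_ ((low a b h).2 v hv σ (by nlinarith))⟩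
    rw [two_mul]
    push_cast
    exact le_rfl

end Pool.Agent.Results.MP_65fb70_co.AlignedSumHelly
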